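import Mathlib

set_option autoImplicit false

open MeasureTheory Set
open scoped ENNReal NNReal

namespace Pool.Agent.U688.WV

lemma jens {α : Type*} [MeasurableSpace α] (μ : Measure α) (p : ℝ) (hp : 1 < p) (k h : α → ℝ≥0∞)
    (hk : AEMeasurable k μ) (hh : AEMeasurable h μ) :
    (∫⁻ a, k a * h a ∂μ) ^ p ≤ (∫⁻ a, k a ∂μ) ^ (p - 1) * ∫⁻ a, k a * h a ^ p ∂μ := by
  have hpq : p.HolderConjugate (p.conjExponent) := Real.HolderConjugate.conjExponent hp
  set q := p.conjExponent with hq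
  have hp0 : 0 < p := by linarith
  have hq0 : 0 < q := hpq.symm.pos
  have h1 := ENNReal.lintegral_mul_le_Lp_mul_Lq μ hpq (f := fun a => k a ^ (1 / p) * h a)
    (g := fun a => k a ^ (1 / q)) ((hk.pow_const _).mul hh) (hk.pow_const _)
  have e1 : ∀ a, ((fun a => k a ^ (1 / p) * h a) * fun a => k a ^ (1 / q)) a = k a * h a := by
    intro a
    simp only [Pi.mul_apply]
    have : k a ^ (1 / p) * k a ^ (1 / q) = k a := by
      rw [← ENNReal.rpow_add_of_nonneg _ _ (by positivity) (by positivity)]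
      have : 1 / p + 1 / q = 1 := by
        have := hpq.inv_add_inv_eq_one
        simpa [one_div] using this
      rw [this, ENNReal.rpow_one]
    calc k a ^ (1 / p) * h a * k a ^ (1 / q) = (k a ^ (1 / p) * k a ^ (1 / q)) * h a := by ring
      _ = _ := by rw [this]
  have e2 : ∀ a, (k a ^ (1 / p) * h a) ^ p = k a * h a ^ p := by
    intro a
    rw [ENNReal.mul_rpow_of_nonneg _ _ hp0.le, ← ENNReal.rpow_mul, one_div_mul_cancel hp0.ne', ENNReal.rpow_one]
  have e3 : ∀ a, (k a ^ (1 / q)) ^ q = k a := by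
    intro a
    rw [← ENNReal.rpow_mul, one_div_mul_cancel hq0.ne', ENNReal.rpow_one]
  simp only [e1, e2, e3] at h1
  calc (∫⁻ a, k a * h a ∂μ) ^ p
      ≤ ((∫⁻ a, k a * h a ^ p ∂μ) ^ (1 / p) * (∫⁻ a, k a ∂μ) ^ (1 / q)) ^ p :=
        ENNReal.rpow_le_rpow h1 hp0.le
    _ = (∫⁻ a, k a * h a ^ p ∂μ) * (∫⁻ a, k a ∂μ) ^ (p - 1) := by
        rw [ENNReal.mul_rpow_of_nonneg _ _ hp0.le, ← ENNReal.rpow_mul, one_div_mul_cancel hp0.ne',
          ENNReal.rpow_one, ← ENNReal.rpow_mul]
        congr 2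
        have := hpq.inv_add_inv_eq_one
        have h3 : q⁻¹ = 1 - p⁻¹ := by linarith
        rw [one_div, h3]
        field_simp
    _ = _ := mul_comm _ _

/-- polynomial growth against exponential growth -/
lemma growth (r c : ℝ) (hr : 0 ≤ r) (hc : 0 < c) : ∃ D : ℝ, 0 < D ∧ ∀ y : ℝ, 0 ≤ y →
    (1 + y) ^ r ≤ D * Real.exp (c * y) := by
  set m : ℝ := max 1 (r / c) with hm
  have hm1 : 1 ≤ m := le_max_left _ _
  have hm2 : r / c ≤ m := le_max_right _ _
  have hm0 : 0 < m := by linarith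
  refine ⟨m ^ r, Real.rpow_pos_of_pos hm0 r, ?_⟩
  intro y hy
  have h1 : 1 + y ≤ m * Real.exp (y / m) := by
    have h2 : y / m + 1 ≤ Real.exp (y / m) := Real.add_one_le_exp _
    have h3 : m * (y / m + 1) = y + m := by field_simp
    have h4 : m * (y / m + 1) ≤ m * Real.exp (y / m) := mul_le_mul_of_nonneg_left h2 hm0.le
    linarith
  calc (1 + y) ^ r ≤ (m * Real.exp (y / m)) ^ r := Real.rpow_le_rpow (by linarith) h1 hr
    _ = m ^ r * Real.exp (y / m * r) := by
        rw [Real.mul_rpow hm0.le (Real.exp_pos _).le, ← Real.exp_mul]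
    _ ≤ m ^ r * Real.exp (c * y) := by
        apply mul_le_mul_of_nonneg_left _ (Real.rpow_nonneg hm0.le r)
        apply Real.exp_le_exp.2
        have h5 : r ≤ m * c := by
          rw [div_le_iff₀ hc] at hm2
          exact hm2
        rw [div_mul_eq_mul_div, div_le_iff₀ hm0]
        nlinarith

end Pool.Agent.U688.WV
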