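import Pool.Agent.U688.WV.Gau
import Pool.Agent.U562.WV.Stm

set_option autoImplicit false

open MeasureTheory Set
open scoped ENNReal NNReal FourierTransform RealInnerProductSpace SchwartzMap

namespace Pool.Agent.U688.WV

open Pool.Agent.U562.WV

/-- the exponential -/
noncomputable def ee (x ξ : E 3) : ℂ := Complex.exp (((2 * Real.pi * ⟪x, ξ⟫ : ℝ) : ℂ) * Complex.I)

lemma ee_norm (x ξ : E 3) : ‖ee x ξ‖ = 1 := Complex.norm_exp_ofReal_mul_I _

lemma ee_meas : Measurable fun w : E 3 × E 3 => ee w.1 w.2 := by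
  unfold ee
  exact (by fun_prop : Continuous fun w : E 3 × E 3 =>
    Complex.exp (((2 * Real.pi * ⟪w.1, w.2⟫ : ℝ) : ℂ) * Complex.I)).measurable

lemma inv_eq (φ : E 3 → ℂ) (x : E 3) : inv φ x = ∫ ξ, ee x ξ * φ ξ := rfl

lemma ee_int (x : E 3) (φ : E 3 → ℂ) (hφ : Integrable φ) : Integrable fun ξ => ee x ξ * φ ξ := by
  apply hφ.bdd_mul (c := 1)
  · exact (ee_meas.comp (f := fun ξ : E 3 => (x, ξ)) (by fun_prop)).aestronglyMeasurable
  · filter_upwards with ξ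
    rw [ee_norm]

lemma inv_add (φ ψ : E 3 → ℂ) (hφ : Integrable φ) (hψ : Integrable ψ) (x : E 3) :
    inv (fun ξ => φ ξ + ψ ξ) x = inv φ x + inv ψ x := by
  rw [inv_eq, inv_eq, inv_eq, ← integral_add (ee_int x φ hφ) (ee_int x ψ hψ)]
  congr 1
  ext ξ
  ring

lemma inv_smul (c : ℂ) (φ : E 3 → ℂ) (x : E 3) :
    inv (fun ξ => c * φ ξ) x = c * inv φ x := by
  rw [inv_eq, inv_eq, ← integral_const_mul]
  congr 1
  ext ξ
  ring

lemma inv_congr (φ ψ : E 3 → ℂ) (h : ∀ᵐ ξ, φ ξ = ψ ξ) (x : E 3) : inv φ x = inv ψ x := by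
  rw [inv_eq, inv_eq]
  apply integral_congr_ae
  filter_upwards [h] with ξ hξ
  rw [hξ]

lemma inv_rep {Z : Type*} [MeasurableSpace Z] (m : Measure Z) [SFinite m] (G : E 3 → ℂ) (hG : Integrable G)
    (κ : Z → ℝ) (hκ : Integrable κ m) (g : Z → E 3 → ℝ) (hg : Measurable (Function.uncurry g))
    (hg1 : ∀ᵐ z ∂m, ∀ ξ, |g z ξ| ≤ 1) (M : E 3 → ℝ) (hM : ∀ᵐ ξ, M ξ = ∫ z, κ z * g z ξ ∂m) (x : E 3) :
    Integrable (fun ξ => (M ξ : ℂ) * G ξ) ∧
    ‖inv (fun ξ => (M ξ : ℂ) * G ξ) x‖ₑ ≤ ∫⁻ z, ‖κ z‖ₑ * ‖inv (fun ξ => (g z ξ : ℂ) * G ξ) x‖ₑ ∂m := by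
  have hgs : Measurable fun w : E 3 × Z => ((g w.2 w.1 : ℝ) : ℂ) :=
    Complex.measurable_ofReal.comp (hg.comp (f := fun w : E 3 × Z => (w.2, w.1)) (by fun_prop))
  have hb : ∀ᵐ w ∂((volume : Measure (E 3)).prod m), ‖((g w.2 w.1 : ℝ) : ℂ)‖ ≤ 1 := by
    have := Measure.quasiMeasurePreserving_snd (μ := (volume : Measure (E 3))) (ν := m) |>.ae hg1
    filter_upwards [this] with w hw
    rw [Complex.norm_real]
    exact hw w.1
  have h0 : Integrable (fun w : E 3 × Z => ((g w.2 w.1 : ℝ) : ℂ) * (G w.1 * (κ w.2 : ℂ)))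
      ((volume : Measure (E 3)).prod m) :=
    (hG.mul_prod hκ.ofReal).bdd_mul hgs.aestronglyMeasurable hb
  have hin : ∀ᵐ ξ : E 3, ∫ z, ((g z ξ : ℝ) : ℂ) * (G ξ * (κ z : ℂ)) ∂m = (M ξ : ℂ) * G ξ := by
    filter_upwards [hM] with ξ hξ
    rw [hξ, ← integral_complex_ofReal, ← integral_mul_const]
    congr 1
    ext z
    push_cast
    ring
  constructor
  · exact h0.integral_prod_left.congr hin
  · have h1 : Integrable (fun w : E 3 × Z => ee x w.1 * (((g w.2 w.1 : ℝ) : ℂ) * (G w.1 * (κ w.2 : ℂ))))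
        ((volume : Measure (E 3)).prod m) := by
      apply h0.bdd_mul (c := 1)
      · exact (ee_meas.comp (f := fun w : E 3 × Z => (x, w.1)) (by fun_prop)).aestronglyMeasurable
      · filter_upwards with w
        rw [ee_norm]
    have h2 : inv (fun ξ => (M ξ : ℂ) * G ξ) x =
        ∫ ξ, (∫ z, ee x ξ * (((g z ξ : ℝ) : ℂ) * (G ξ * (κ z : ℂ))) ∂m) := by
      rw [inv_eq]
      apply integral_congr_ae
      filter_upwards [hin] with ξ hξ
      rw [← hξ, integral_const_mul]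
    have h3 : ∫ ξ, (∫ z, ee x ξ * (((g z ξ : ℝ) : ℂ) * (G ξ * (κ z : ℂ))) ∂m) =
        ∫ z, (∫ ξ, ee x ξ * (((g z ξ : ℝ) : ℂ) * (G ξ * (κ z : ℂ)))) ∂m := integral_integral_swap h1
    rw [h2, h3]
    refine (enorm_integral_le_lintegral_enorm _).trans (le_of_eq ?_)
    congr 1
    ext z
    have h4 : ∫ ξ, ee x ξ * (((g z ξ : ℝ) : ℂ) * (G ξ * (κ z : ℂ))) =
        (κ z : ℂ) * inv (fun ξ => (g z ξ : ℂ) * G ξ) x := by
      rw [inv_eq, ← integral_const_mul]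
      congr 1
      ext ξ
      ring
    rw [h4, enorm_mul]
    congr 1
    rw [← ofReal_norm, ← ofReal_norm, Complex.norm_real]

/-- measurability of parametric inverse Fourier transforms -/
lemma inv_meas {Z : Type*} [MeasurableSpace Z] (F : Z → E 3 → ℂ) (hF : Measurable (Function.uncurry F)) :
    Measurable fun w : Z × E 3 => inv (F w.1) w.2 := by
  have h : StronglyMeasurable fun w : (Z × E 3) × E 3 => ee w.1.2 w.2 * F w.1.1 w.2 := by
    apply Measurable.stronglyMeasurable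
    apply Measurable.mul
    · exact ee_meas.comp (f := fun w : (Z × E 3) × E 3 => (w.1.2, w.2)) (by fun_prop)
    · exact hF.comp (f := fun w : (Z × E 3) × E 3 => (w.1.1, w.2)) (by fun_prop)
  exact (h.integral_prod_right' (ν := volume)).measurable

end Pool.Agent.U688.WV
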