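import Pool.Agent.U688.WV.Mainc

set_option autoImplicit false

open MeasureTheory Set
open scoped ENNReal NNReal

namespace Pool.Agent.U688.WV

lemma gauss_int (a θ : ℝ) : ∫ ρ : ℝ, Real.exp (-(1 / 2) * ρ ^ 2) * Real.sin (θ - a * ρ) =
    √(2 * Real.pi) * Real.exp (-(a ^ 2 / 2)) * Real.sin θ := by
  have h := fourierIntegral_gaussian (b := (1 / 2 : ℂ)) (by norm_num) (-(a : ℂ))
  have h1 : ∫ ρ : ℝ, Complex.exp (Complex.I * θ) *
      (Complex.exp (Complex.I * (-(a : ℂ)) * ρ) * Complex.exp (-(1 / 2) * (ρ : ℂ) ^ 2)) =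
      Complex.exp (Complex.I * θ) *
        ((Real.pi / (1 / 2 : ℂ)) ^ (1 / 2 : ℂ) * Complex.exp (-(-(a : ℂ)) ^ 2 / (4 * (1 / 2)))) := by
    rw [integral_const_mul, h]
  have h2 : ∀ ρ : ℝ, Complex.exp (Complex.I * θ) *
      (Complex.exp (Complex.I * (-(a : ℂ)) * ρ) * Complex.exp (-(1 / 2) * (ρ : ℂ) ^ 2)) =
      ((Real.exp (-(1 / 2) * ρ ^ 2) : ℝ) : ℂ) * Complex.exp (((θ - a * ρ : ℝ) : ℂ) * Complex.I) := by
    intro ρ
    rw [Complex.ofReal_exp, ← Complex.exp_add, ← Complex.exp_add, ← Complex.exp_add]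
    congr 1
    push_cast
    ring
  have h3 : (Real.pi / (1 / 2 : ℂ)) ^ (1 / 2 : ℂ) = ((√(2 * Real.pi) : ℝ) : ℂ) := by
    have e1 : (Real.pi / (1 / 2 : ℂ)) = ((2 * Real.pi : ℝ) : ℂ) := by push_cast; ring
    have e2 : (1 / 2 : ℂ) = ((1 / 2 : ℝ) : ℂ) := by push_cast; ring
    rw [e1, e2, ← Complex.ofReal_cpow (by positivity), Real.sqrt_eq_rpow]
  have h4 : Complex.exp (-(-(a : ℂ)) ^ 2 / (4 * (1 / 2))) = ((Real.exp (-(a ^ 2 / 2)) : ℝ) : ℂ) := by
    rw [Complex.ofReal_exp]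
    congr 1
    push_cast
    ring
  have h5 : Complex.exp (Complex.I * θ) = Complex.exp ((θ : ℂ) * Complex.I) := by rw [mul_comm]
  rw [h3, h4] at h1
  simp only [h2] at h1
  have hint : Integrable (fun ρ : ℝ => ((Real.exp (-(1 / 2) * ρ ^ 2) : ℝ) : ℂ) *
      Complex.exp (((θ - a * ρ : ℝ) : ℂ) * Complex.I)) := by
    have hg : Integrable (fun ρ : ℝ => ((Real.exp (-(1 / 2) * ρ ^ 2) : ℝ) : ℂ)) :=
      (integrable_exp_neg_mul_sq (b := 1 / 2) (by norm_num)).ofReal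
    apply hg.mul_bdd (c := 1)
    · exact (by fun_prop : Continuous fun ρ : ℝ => Complex.exp (((θ - a * ρ : ℝ) : ℂ) * Complex.I)).aestronglyMeasurable
    · filter_upwards with ρ
      rw [Complex.norm_exp_ofReal_mul_I]
  have h6 := congrArg Complex.im h1
  have h7 := Complex.imCLM.integral_comp_comm hint
  simp only [Complex.imCLM_apply] at h7
  rw [← h7] at h6
  have h8 : ∀ ρ : ℝ, (((Real.exp (-(1 / 2) * ρ ^ 2) : ℝ) : ℂ) *
      Complex.exp (((θ - a * ρ : ℝ) : ℂ) * Complex.I)).im = Real.exp (-(1 / 2) * ρ ^ 2) * Real.sin (θ - a * ρ) := by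
    intro ρ
    rw [Complex.im_ofReal_mul, Complex.exp_ofReal_mul_I_im]
  simp only [h8] at h6
  rw [h6, h5, ← Complex.ofReal_mul, mul_comm, Complex.im_ofReal_mul, Complex.exp_ofReal_mul_I_im]

lemma gauss_cos (a θ : ℝ) : ∫ ρ : ℝ, ρ * Real.exp (-(1 / 2) * ρ ^ 2) * Real.cos (θ - a * ρ) =
    √(2 * Real.pi) * (a * Real.exp (-(a ^ 2 / 2))) * Real.sin θ := by
  have hA : Integrable (fun ρ : ℝ => ρ * Real.exp (-(1 / 2) * ρ ^ 2) * Real.cos (θ - a * ρ)) := by
    apply (integrable_mul_exp_neg_mul_sq (b := 1 / 2) (by norm_num)).mul_bdd (c := 1)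
    · exact (by fun_prop : Continuous fun ρ : ℝ => Real.cos (θ - a * ρ)).aestronglyMeasurable
    · filter_upwards with ρ
      exact Real.abs_cos_le_one _
  have hB : Integrable (fun ρ : ℝ => Real.exp (-(1 / 2) * ρ ^ 2) * Real.sin (θ - a * ρ)) := by
    apply (integrable_exp_neg_mul_sq (b := 1 / 2) (by norm_num)).mul_bdd (c := 1)
    · exact (by fun_prop : Continuous fun ρ : ℝ => Real.sin (θ - a * ρ)).aestronglyMeasurable
    · filter_upwards with ρ
      exact Real.abs_sin_le_one _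
  have hC : Integrable (fun ρ : ℝ => -(Real.exp (-(1 / 2) * ρ ^ 2) * Real.cos (θ - a * ρ))) := by
    apply Integrable.neg
    apply (integrable_exp_neg_mul_sq (b := 1 / 2) (by norm_num)).mul_bdd (c := 1)
    · exact (by fun_prop : Continuous fun ρ : ℝ => Real.cos (θ - a * ρ)).aestronglyMeasurable
    · filter_upwards with ρ
      exact Real.abs_cos_le_one _
  have hd : ∀ ρ : ℝ, HasDerivAt (fun ρ : ℝ => -(Real.exp (-(1 / 2) * ρ ^ 2) * Real.cos (θ - a * ρ)))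
      (ρ * Real.exp (-(1 / 2) * ρ ^ 2) * Real.cos (θ - a * ρ) -
        a * (Real.exp (-(1 / 2) * ρ ^ 2) * Real.sin (θ - a * ρ))) ρ := by
    intro ρ
    have e1 : HasDerivAt (fun ρ : ℝ => -(1 / 2) * ρ ^ 2) (-(1 / 2) * (2 * ρ)) ρ := by
      have := (hasDerivAt_pow 2 ρ).const_mul (-(1 / 2) : ℝ)
      simpa using this
    have e2 : HasDerivAt (fun ρ : ℝ => θ - a * ρ) (-a) ρ := by
      have := ((hasDerivAt_id ρ).const_mul a).const_sub θ
      simpa using this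
    refine (HasDerivAt.fun_neg (HasDerivAt.fun_mul e1.exp e2.cos)).congr_deriv ?_
    ring
  have h0 := integral_eq_zero_of_hasDerivAt_of_integrable hd (hA.sub (hB.const_mul a)) hC
  rw [integral_sub hA (hB.const_mul a), integral_const_mul, gauss_int] at h0
  linarith

/-- the Gamma integral -/
lemma gamma_int (al L : ℝ) (hal : 0 < al) (hL : 0 < L) :
    ∫ τ in Ioi (0 : ℝ), τ ^ (al - 1) * (Real.exp (-(L * τ)) - Real.exp (-(2 * L * τ))) =
      (Real.Gamma al * (1 - 2 ^ (-al))) * L ^ (-al) := by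
  have h1 := Real.integral_rpow_mul_exp_neg_mul_Ioi hal hL
  have h2 := Real.integral_rpow_mul_exp_neg_mul_Ioi hal (show (0 : ℝ) < 2 * L by positivity)
  have i1 : ∀ c : ℝ, 0 < c → IntegrableOn (fun τ : ℝ => τ ^ (al - 1) * Real.exp (-(c * τ))) (Ioi 0) := by
    intro c hc
    have h := integrableOn_rpow_mul_exp_neg_mul_rpow (p := 1) (s := al - 1) (b := c) (by linarith) one_pos hc
    simpa only [Real.rpow_one, neg_mul] using h
  have h3 : ∫ τ in Ioi (0 : ℝ), τ ^ (al - 1) * (Real.exp (-(L * τ)) - Real.exp (-(2 * L * τ))) =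
      (∫ τ in Ioi (0 : ℝ), τ ^ (al - 1) * Real.exp (-(L * τ))) -
        ∫ τ in Ioi (0 : ℝ), τ ^ (al - 1) * Real.exp (-(2 * L * τ)) := by
    rw [← integral_sub (i1 L hL) (i1 (2 * L) (by positivity))]
    congr 1
    ext τ
    ring
  rw [h3, h1, h2, one_div, one_div, Real.inv_rpow hL.le, Real.inv_rpow (by positivity),
    Real.mul_rpow (by norm_num) hL.le, Real.rpow_neg hL.le, Real.rpow_neg (by norm_num), mul_inv]
  ring

end Pool.Agent.U688.WV
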