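import Pool.Agent.U688.WV.Hold

set_option autoImplicit false

open MeasureTheory Set
open scoped ENNReal NNReal

namespace Pool.Agent.U688.WV

/-- the half plane -/
noncomputable def mu : Measure (ℝ × ℝ) := (volume : Measure (ℝ × ℝ)).restrict (Ioi (0 : ℝ) ×ˢ univ)

lemma mu_eq : mu = ((volume : Measure ℝ).restrict (Ioi 0)).prod volume := by
  unfold mu
  rw [Measure.volume_eq_prod, ← Measure.prod_restrict, Measure.restrict_univ]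

instance : SFinite mu := by unfold mu; infer_instance

lemma ae_mu : ∀ᵐ z ∂mu, 0 < z.1 := by
  unfold mu
  filter_upwards [ae_restrict_mem (measurableSet_Ioi.prod MeasurableSet.univ)] with z hz
  exact hz.1

lemma fin_mu (E : ℝ) (hE : -1 < E) :
    ∫⁻ z, ENNReal.ofReal (z.1 ^ E * Real.exp (-(1 / 2) * z.1)) * ENNReal.ofReal (Real.exp (-(1 / 4) * z.2 ^ 2)) ∂mu
      < ⊤ := by
  rw [mu_eq, lintegral_prod_mul (f := fun τ : ℝ => ENNReal.ofReal (τ ^ E * Real.exp (-(1 / 2) * τ)))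
    (g := fun ρ : ℝ => ENNReal.ofReal (Real.exp (-(1 / 4) * ρ ^ 2))) (by fun_prop) (by fun_prop)]
  apply ENNReal.mul_lt_top
  · have h := integrableOn_rpow_mul_exp_neg_mul_rpow (p := 1) (s := E) (b := 1 / 2) hE one_pos (by norm_num)
    simp only [Real.rpow_one] at h
    exact h.lintegral_lt_top
  · exact (integrable_exp_neg_mul_sq (b := 1 / 4) (by norm_num)).lintegral_lt_top

/-- the weight -/
noncomputable def wgt (β : ℝ) (z : ℝ × ℝ) : ℝ≥0∞ :=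
  ENNReal.ofReal (z.1 ^ β * Real.exp (-z.1) * (|z.2| * Real.exp (-(1 / 2) * z.2 ^ 2)))

lemma meas_wgt (β : ℝ) : Measurable (wgt β) := by
  unfold wgt
  fun_prop

lemma rho_bound (r : ℝ) (hr : 0 ≤ r) : ∃ D : ℝ, 0 < D ∧ ∀ ρ : ℝ, (1 + |ρ|) ^ r ≤ D * Real.exp ((1 / 4) * ρ ^ 2) := by
  obtain ⟨D, hD, h⟩ := growth r (1 / 4) hr (by norm_num)
  refine ⟨2 ^ r * D, by positivity, ?_⟩
  intro ρ
  have h1 : 1 + |ρ| ≤ 2 * (1 + ρ ^ 2) := by
    have : |ρ| ^ 2 = ρ ^ 2 := sq_abs ρ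
    nlinarith [sq_nonneg (|ρ| - 1)]
  calc (1 + |ρ|) ^ r ≤ (2 * (1 + ρ ^ 2)) ^ r := Real.rpow_le_rpow (by positivity) h1 hr
    _ = 2 ^ r * (1 + ρ ^ 2) ^ r := Real.mul_rpow (by norm_num) (by positivity)
    _ ≤ 2 ^ r * (D * Real.exp ((1 / 4) * ρ ^ 2)) :=
        mul_le_mul_of_nonneg_left (h _ (sq_nonneg ρ)) (by positivity)
    _ = _ := by ring

lemma tau_bound (r : ℝ) (hr : 0 ≤ r) : ∃ D : ℝ, 0 < D ∧ ∀ τ : ℝ, 0 ≤ τ →
    (1 + √τ) ^ r ≤ D * Real.exp ((1 / 2) * τ) := by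
  obtain ⟨D, hD, h⟩ := growth r (1 / 2) hr (by norm_num)
  refine ⟨2 ^ r * D, by positivity, ?_⟩
  intro τ hτ
  have h1 : 1 + √τ ≤ 2 * (1 + τ) := by
    have : √τ ^ 2 = τ := Real.sq_sqrt hτ
    nlinarith [sq_nonneg (√τ - 1)]
  calc (1 + √τ) ^ r ≤ (2 * (1 + τ)) ^ r := Real.rpow_le_rpow (by positivity) h1 hr
    _ = 2 ^ r * (1 + τ) ^ r := Real.mul_rpow (by norm_num) (by positivity)
    _ ≤ 2 ^ r * (D * Real.exp ((1 / 2) * τ)) :=
        mul_le_mul_of_nonneg_left (h _ hτ) (by positivity)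
    _ = _ := by ring

/-- the main bound for the weights -/
lemma weight_bound (p q b β η : ℝ) (hq : 0 ≤ q) :
    ∃ D : ℝ, 0 < D ∧ ∀ τ ρ : ℝ, 0 < τ →
      τ ^ (-1 + η) * Real.exp (-τ) * (|ρ| * Real.exp (-(1 / 2) * ρ ^ 2)) * (τ ^ (β + 1 - η)) ^ p *
        ((1 + (2 + |√τ * ρ|)) * (1 + (2 + |√τ * ρ|) / √τ) ^ q * τ ^ b) ≤
      D * ((τ ^ (-1 + η + p * (β + 1 - η) + b - q / 2) * Real.exp (-(1 / 2) * τ)) * Real.exp (-(1 / 4) * ρ ^ 2)) := by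
  obtain ⟨D₁, hD₁, h₁⟩ := tau_bound (q + 1) (by linarith)
  obtain ⟨D₂, hD₂, h₂⟩ := rho_bound (q + 2) (by linarith)
  refine ⟨3 * 2 ^ q * D₁ * D₂, by positivity, ?_⟩
  intro τ ρ hτ
  have hs : 0 < √τ := Real.sqrt_pos.2 hτ
  have hss : √τ ^ 2 = τ := Real.sq_sqrt hτ.le
  have habs : |√τ * ρ| = √τ * |ρ| := by rw [abs_mul, abs_of_pos hs]
  have hρ := abs_nonneg ρ
  rw [habs]
  have e1 : 1 + (2 + √τ * |ρ|) ≤ 3 * ((1 + √τ) * (1 + |ρ|)) := by nlinarith [mul_nonneg hs.le hρ]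
  have e2 : 1 + (2 + √τ * |ρ|) / √τ ≤ 2 * ((1 + √τ) * (1 + |ρ|)) / √τ := by
    rw [le_div_iff₀ hs]
    have : (1 + (2 + √τ * |ρ|) / √τ) * √τ = √τ + 2 + √τ * |ρ| := by field_simp; ring
    rw [this]
    nlinarith [mul_nonneg hs.le hρ]
  have e3 : (1 + (2 + √τ * |ρ|) / √τ) ^ q ≤ 2 ^ q * (1 + √τ) ^ q * (1 + |ρ|) ^ q * τ ^ (-(q / 2)) := by
    calc (1 + (2 + √τ * |ρ|) / √τ) ^ q ≤ (2 * ((1 + √τ) * (1 + |ρ|)) / √τ) ^ q :=
          Real.rpow_le_rpow (by positivity) e2 hq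
      _ = 2 ^ q * (1 + √τ) ^ q * (1 + |ρ|) ^ q * τ ^ (-(q / 2)) := by
          rw [Real.div_rpow (by positivity) hs.le, Real.mul_rpow (by norm_num) (by positivity),
            Real.mul_rpow (by positivity) (by positivity), Real.sqrt_eq_rpow, ← Real.rpow_mul hτ.le,
            Real.rpow_neg hτ.le]
          rw [show (1 / 2 : ℝ) * q = q / 2 by ring]
          rw [← Real.sqrt_eq_rpow]
          ring
  have e4 : (1 + (2 + √τ * |ρ|)) * (1 + (2 + √τ * |ρ|) / √τ) ^ q ≤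
      3 * 2 ^ q * (1 + √τ) ^ (q + 1) * (1 + |ρ|) ^ (q + 1) * τ ^ (-(q / 2)) := by
    calc _ ≤ (3 * ((1 + √τ) * (1 + |ρ|))) * (2 ^ q * (1 + √τ) ^ q * (1 + |ρ|) ^ q * τ ^ (-(q / 2))) :=
          mul_le_mul e1 e3 (by positivity) (by positivity)
      _ = _ := by
          rw [Real.rpow_add_one (by positivity), Real.rpow_add_one (by positivity)]
          ring
  have e5 : |ρ| * (1 + |ρ|) ^ (q + 1) ≤ D₂ * Real.exp ((1 / 4) * ρ ^ 2) := by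
    calc |ρ| * (1 + |ρ|) ^ (q + 1) ≤ (1 + |ρ|) * (1 + |ρ|) ^ (q + 1) :=
          mul_le_mul_of_nonneg_right (by linarith) (by positivity)
      _ = (1 + |ρ|) ^ (q + 2) := by
          rw [show q + 2 = (q + 1) + 1 by ring, Real.rpow_add_one (by positivity) (q + 1)]
          ring
      _ ≤ _ := h₂ ρ
  have e6 := h₁ τ hτ.le
  have e7 : τ ^ (-1 + η) * (τ ^ (β + 1 - η)) ^ p * τ ^ (-(q / 2)) * τ ^ b =
      τ ^ (-1 + η + p * (β + 1 - η) + b - q / 2) := by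
    rw [← Real.rpow_mul hτ.le, ← Real.rpow_add hτ, ← Real.rpow_add hτ, ← Real.rpow_add hτ]
    congr 1
    ring
  calc _ ≤ τ ^ (-1 + η) * Real.exp (-τ) * (|ρ| * Real.exp (-(1 / 2) * ρ ^ 2)) * (τ ^ (β + 1 - η)) ^ p *
        ((3 * 2 ^ q * (1 + √τ) ^ (q + 1) * (1 + |ρ|) ^ (q + 1) * τ ^ (-(q / 2))) * τ ^ b) := by
        apply mul_le_mul_of_nonneg_left _ (by positivity)
        exact mul_le_mul_of_nonneg_right e4 (by positivity)
    _ = (3 * 2 ^ q) * (τ ^ (-1 + η) * (τ ^ (β + 1 - η)) ^ p * τ ^ (-(q / 2)) * τ ^ b) *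
        (Real.exp (-τ) * (1 + √τ) ^ (q + 1)) * (Real.exp (-(1 / 2) * ρ ^ 2) * (|ρ| * (1 + |ρ|) ^ (q + 1))) := by
        ring
    _ ≤ (3 * 2 ^ q) * (τ ^ (-1 + η) * (τ ^ (β + 1 - η)) ^ p * τ ^ (-(q / 2)) * τ ^ b) *
        (Real.exp (-τ) * (D₁ * Real.exp ((1 / 2) * τ))) *
          (Real.exp (-(1 / 2) * ρ ^ 2) * (D₂ * Real.exp ((1 / 4) * ρ ^ 2))) := by
        gcongr
    _ = _ := by
        rw [e7]
        have x1 : Real.exp (-τ) * Real.exp ((1 / 2) * τ) = Real.exp (-(1 / 2) * τ) := by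
          rw [← Real.exp_add]; congr 1; ring
        have x2 : Real.exp (-(1 / 2) * ρ ^ 2) * Real.exp ((1 / 4) * ρ ^ 2) = Real.exp (-(1 / 4) * ρ ^ 2) := by
          rw [← Real.exp_add]; congr 1; ring
        rw [← x1, ← x2]
        ring

end Pool.Agent.U688.WV
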