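import Pool.Agent.U688.WV.Mainb

set_option autoImplicit false

open MeasureTheory Set
open scoped ENNReal NNReal

namespace Pool.Agent.U688.WV

lemma shift (ψ : ℝ → ℝ≥0∞) (hev : ∀ t, ψ (-t) = ψ t) (c : ℝ) :
    ∫⁻ t in Icc (0 : ℝ) 2, ψ (t - c) ≤ 2 * ∫⁻ t in Ioc (0 : ℝ) (2 + |c|), ψ t := by
  set T := 2 + |c| with hT
  have hc1 := neg_abs_le c
  have hc2 := le_abs_self c
  have h1 : ∫⁻ t in Icc (0 : ℝ) 2, ψ (t - c) = ∫⁻ u in Icc (-c) (2 - c), ψ u := by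
    rw [← lintegral_indicator measurableSet_Icc, ← lintegral_indicator measurableSet_Icc]
    rw [← lintegral_sub_right_eq_self ((Icc (-c) (2 - c)).indicator ψ) c]
    congr 1
    ext t
    by_cases ht : t ∈ Icc (0 : ℝ) 2
    · rw [indicator_of_mem ht, indicator_of_mem]
      constructor <;> linarith [ht.1, ht.2]
    · rw [indicator_of_notMem ht, indicator_of_notMem]
      intro h
      apply ht
      constructor <;> linarith [h.1, h.2]
  have h2 : Icc (-c) (2 - c) ⊆ (Ico (-T) 0 ∪ {0}) ∪ Ioc 0 T := by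
    intro u hu
    rcases lt_trichotomy u 0 with h | h | h
    · left; left
      exact ⟨by linarith [hu.1], h⟩
    · left; right
      exact h
    · right
      exact ⟨h, by linarith [hu.2]⟩
  have h3 : ∫⁻ u in Ico (-T) 0, ψ u = ∫⁻ u in Ioc 0 T, ψ u := by
    rw [← lintegral_indicator measurableSet_Ico, ← lintegral_indicator measurableSet_Ioc]
    rw [← lintegral_neg_eq_self (f := (Ico (-T) 0).indicator ψ)]
    congr 1
    ext t
    by_cases ht : t ∈ Ioc (0 : ℝ) T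
    · rw [indicator_of_mem ht, indicator_of_mem, hev]
      constructor <;> linarith [ht.1, ht.2]
    · rw [indicator_of_notMem ht, indicator_of_notMem]
      intro h
      apply ht
      constructor <;> linarith [h.1, h.2]
  rw [h1]
  calc ∫⁻ u in Icc (-c) (2 - c), ψ u ≤ ∫⁻ u in (Ico (-T) 0 ∪ {0}) ∪ Ioc 0 T, ψ u := lintegral_mono_set h2
    _ ≤ (∫⁻ u in Ico (-T) 0 ∪ {0}, ψ u) + ∫⁻ u in Ioc 0 T, ψ u := lintegral_union_le _ _ _
    _ ≤ ((∫⁻ u in Ico (-T) 0, ψ u) + ∫⁻ u in ({0} : Set ℝ), ψ u) + ∫⁻ u in Ioc 0 T, ψ u := by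
        gcongr
        exact lintegral_union_le _ _ _
    _ = 2 * ∫⁻ t in Ioc (0 : ℝ) T, ψ t := by
        rw [h3]
        simp
        ring

theorem mainb {X : Type*} [MeasurableSpace X] (ν : Measure X) [SFinite ν] (p q b β : ℝ) (hp : 1 < p)
    (hq : 0 ≤ q) (hcond : 0 < p * (β + 1) + b - q / 2) :
    ∃ D : ℝ, 0 < D ∧ ∀ (Φ : ℝ → ℝ → X → ℝ≥0∞), Measurable (fun z : ℝ × ℝ × X => Φ z.1 z.2.1 z.2.2) →
      (∀ τ t x, Φ τ (-t) x = Φ τ t x) → ∀ (C : ℝ) (N : ℝ≥0∞), 0 ≤ C →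
      (∀ τ T, 0 < τ → 0 < T → ∫⁻ t in Ioc 0 T, (∫⁻ x, Φ τ t x ^ p ∂ν) ≤
         ENNReal.ofReal (C * ((1 + T) * (1 + T / √τ) ^ q * τ ^ b)) * N) →
      ∫⁻ t in Icc (0 : ℝ) 2, (∫⁻ x, (∫⁻ z, wgt β z * Φ z.1 (t - √z.1 * z.2) x ∂mu) ^ p ∂ν) ≤
        ENNReal.ofReal (D * C) * N := by
  set κ := p * (β + 1) + b - q / 2 with hκ
  set η := κ / (2 * p) with hη
  have hp0 : 0 < p := by linarith
  have hη0 : 0 < η := by positivity
  have hηκ : p * η = κ / 2 := by rw [hη]; field_simp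
  obtain ⟨D₀, hD₀, hw⟩ := weight_bound p q b β η hq
  have hE : -1 < -1 + η + p * (β + 1 - η) + b - q / 2 := by
    have : -1 + η + p * (β + 1 - η) + b - q / 2 = -1 + η + κ - p * η := by rw [hκ]; ring
    rw [this, hηκ]
    linarith
  -- total mass of k
  have hM : ∫⁻ z, wgt (-1 + η) z ∂mu < ⊤ := by
    obtain ⟨D₂, hD₂, h₂⟩ := rho_bound 1 (by norm_num)
    have h := fin_mu (-1 + η) (by linarith)
    refine lt_of_le_of_lt (b := ENNReal.ofReal D₂ * ∫⁻ z, ENNReal.ofReal (z.1 ^ (-1 + η) * Real.exp (-(1 / 2) * z.1)) *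
      ENNReal.ofReal (Real.exp (-(1 / 4) * z.2 ^ 2)) ∂mu) ?_ (ENNReal.mul_lt_top ENNReal.ofReal_lt_top h)
    rw [← lintegral_const_mul' _ _ ENNReal.ofReal_ne_top]
    apply lintegral_mono_ae
    filter_upwards [ae_mu] with z hz
    rw [← ENNReal.ofReal_mul (by positivity), ← ENNReal.ofReal_mul hD₂.le]
    apply ENNReal.ofReal_le_ofReal
    have x2 : Real.exp (-(1 / 2) * z.2 ^ 2) * Real.exp ((1 / 4) * z.2 ^ 2) = Real.exp (-(1 / 4) * z.2 ^ 2) := by
      rw [← Real.exp_add]; congr 1; ring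
    have h3 : |z.2| ≤ D₂ * Real.exp ((1 / 4) * z.2 ^ 2) := by
      have := h₂ z.2
      rw [Real.rpow_one] at this
      linarith
    have h4 : Real.exp (-z.1) ≤ Real.exp (-(1 / 2) * z.1) := Real.exp_le_exp.2 (by linarith)
    calc z.1 ^ (-1 + η) * Real.exp (-z.1) * (|z.2| * Real.exp (-(1 / 2) * z.2 ^ 2))
        ≤ z.1 ^ (-1 + η) * Real.exp (-(1 / 2) * z.1) *
          ((D₂ * Real.exp ((1 / 4) * z.2 ^ 2)) * Real.exp (-(1 / 2) * z.2 ^ 2)) := by gcongr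
      _ = _ := by rw [← x2]; ring
  have hB := fin_mu _ hE
  set M := ∫⁻ z, wgt (-1 + η) z ∂mu with hMdef
  set E := -1 + η + p * (β + 1 - η) + b - q / 2 with hEdef
  set B := ∫⁻ z, ENNReal.ofReal (z.1 ^ E * Real.exp (-(1 / 2) * z.1)) *
      ENNReal.ofReal (Real.exp (-(1 / 4) * z.2 ^ 2)) ∂mu with hBdef
  set D₁ : ℝ≥0∞ := M ^ (p - 1) * (2 * (ENNReal.ofReal D₀ * B)) with hD₁
  have hD₁t : D₁ < ⊤ := by
    apply ENNReal.mul_lt_top
    · exact ENNReal.rpow_lt_top_of_nonneg (by linarith) hM.ne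
    · exact ENNReal.mul_lt_top (by simp) (ENNReal.mul_lt_top ENNReal.ofReal_lt_top hB)
  refine ⟨D₁.toReal + 1, by positivity, ?_⟩
  intro Φ hΦ hev C N hC hbound
  have hmain : ∫⁻ t in Icc (0 : ℝ) 2, (∫⁻ x, (∫⁻ z, wgt β z * Φ z.1 (t - √z.1 * z.2) x ∂mu) ^ p ∂ν) ≤
      D₁ * (ENNReal.ofReal C * N) := by
    -- measurability
    have hms : Measurable fun z : ℝ × ℝ => wgt (-1 + η) z := meas_wgt _
    have hmg : Measurable fun z : ℝ × ℝ => ENNReal.ofReal (z.1 ^ (β + 1 - η)) := by fun_prop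
    have hmΦ : Measurable fun w : (ℝ × X) × (ℝ × ℝ) => Φ w.2.1 (w.1.1 - √w.2.1 * w.2.2) w.1.2 := by
      have : Measurable fun w : (ℝ × X) × (ℝ × ℝ) =>
          ((w.2.1, w.1.1 - √w.2.1 * w.2.2, w.1.2) : ℝ × ℝ × X) := by
        apply Measurable.prodMk (by fun_prop)
        apply Measurable.prodMk
        · apply Measurable.sub (by fun_prop)
          apply Measurable.mul _ (by fun_prop)
          exact Real.continuous_sqrt.measurable.comp (by fun_prop)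
        · fun_prop
      exact hΦ.comp this
    -- step 1
    have hs1 : ∀ (t : ℝ) (x : X), (∫⁻ z, wgt β z * Φ z.1 (t - √z.1 * z.2) x ∂mu) ^ p ≤
        M ^ (p - 1) * ∫⁻ z, wgt (-1 + η) z * (ENNReal.ofReal (z.1 ^ (β + 1 - η)) *
          Φ z.1 (t - √z.1 * z.2) x) ^ p ∂mu := by
      intro t x
      have hm1 : Measurable fun z : ℝ × ℝ => Φ z.1 (t - √z.1 * z.2) x :=
        hmΦ.comp (g := fun w : (ℝ × X) × (ℝ × ℝ) => Φ w.2.1 (w.1.1 - √w.2.1 * w.2.2) w.1.2)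
          (f := fun z : ℝ × ℝ => (((t, x), z) : (ℝ × X) × (ℝ × ℝ))) (by fun_prop)
      have := jens mu p hp (fun z => wgt (-1 + η) z) (fun z => ENNReal.ofReal (z.1 ^ (β + 1 - η)) *
          Φ z.1 (t - √z.1 * z.2) x) hms.aemeasurable (hmg.mul hm1).aemeasurable
      refine le_trans (le_of_eq ?_) this
      congr 1
      apply lintegral_congr_ae
      filter_upwards [ae_mu] with z hz
      rw [← mul_assoc]
      congr 1
      unfold wgt
      rw [← ENNReal.ofReal_mul (by positivity)]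
      congr 1
      have : z.1 ^ β = z.1 ^ (-1 + η) * z.1 ^ (β + 1 - η) := by
        rw [← Real.rpow_add hz]; congr 1; ring
      rw [this]; ring
    set F : (ℝ × X) → (ℝ × ℝ) → ℝ≥0∞ := fun w z => wgt (-1 + η) z *
      (ENNReal.ofReal (z.1 ^ (β + 1 - η)) * Φ z.1 (w.1 - √z.1 * z.2) w.2) ^ p with hF
    have hmF : Measurable (Function.uncurry F) := by
      have a1 : Measurable fun w : (ℝ × X) × (ℝ × ℝ) => wgt (-1 + η) w.2 := hms.comp measurable_snd
      have a2 : Measurable fun w : (ℝ × X) × (ℝ × ℝ) => ENNReal.ofReal (w.2.1 ^ (β + 1 - η)) :=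
        hmg.comp measurable_snd
      exact a1.mul ((a2.mul hmΦ).pow_const p)
    have hMp : M ^ (p - 1) ≠ ⊤ := (ENNReal.rpow_lt_top_of_nonneg (by linarith) hM.ne).ne
    have hswap : ∫⁻ t in Icc (0 : ℝ) 2, (∫⁻ x, (∫⁻ z, F (t, x) z ∂mu) ∂ν) =
        ∫⁻ z, (∫⁻ t in Icc (0 : ℝ) 2, (∫⁻ x, F (t, x) z ∂ν)) ∂mu := by
      have b1 : ∫⁻ t in Icc (0 : ℝ) 2, (∫⁻ x, (∫⁻ z, F (t, x) z ∂mu) ∂ν) =
          ∫⁻ w, (∫⁻ z, F w z ∂mu) ∂((volume.restrict (Icc (0 : ℝ) 2)).prod ν) := by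
        rw [lintegral_prod]
        exact hmF.lintegral_prod_right'.aemeasurable
      rw [b1, lintegral_lintegral_swap hmF.aemeasurable]
      congr 1
      ext z
      rw [lintegral_prod]
      exact (hmF.comp (f := fun w : ℝ × X => (w, z)) (by fun_prop)).aemeasurable
    have hpt : ∀ z : ℝ × ℝ, 0 < z.1 → ∫⁻ t in Icc (0 : ℝ) 2, (∫⁻ x, F (t, x) z ∂ν) ≤
        (2 * (ENNReal.ofReal D₀ * (ENNReal.ofReal (z.1 ^ E * Real.exp (-(1 / 2) * z.1)) *
          ENNReal.ofReal (Real.exp (-(1 / 4) * z.2 ^ 2))))) * (ENNReal.ofReal C * N) := by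
      intro z hz
      set c := √z.1 * z.2 with hc
      have c0 : ∀ t x, F (t, x) z = (wgt (-1 + η) z * ENNReal.ofReal (z.1 ^ (β + 1 - η)) ^ p) * Φ z.1 (t - c) x ^ p := by
        intro t x
        rw [hF]
        simp only
        rw [ENNReal.mul_rpow_of_nonneg _ _ hp0.le, mul_assoc]
      have hk1 : wgt (-1 + η) z * ENNReal.ofReal (z.1 ^ (β + 1 - η)) ^ p ≠ ⊤ := by
        apply ENNReal.mul_ne_top
        · unfold wgt; exact ENNReal.ofReal_ne_top
        · exact ENNReal.rpow_ne_top_of_nonneg hp0.le ENNReal.ofReal_ne_top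
      have c1 : ∫⁻ t in Icc (0 : ℝ) 2, (∫⁻ x, F (t, x) z ∂ν) =
          (wgt (-1 + η) z * ENNReal.ofReal (z.1 ^ (β + 1 - η)) ^ p) *
            ∫⁻ t in Icc (0 : ℝ) 2, (∫⁻ x, Φ z.1 (t - c) x ^ p ∂ν) := by
        rw [← lintegral_const_mul' _ _ hk1]
        congr 1
        ext t
        rw [← lintegral_const_mul' _ _ hk1]
        congr 1
        ext x
        exact c0 t x
      have c2 : ∫⁻ t in Icc (0 : ℝ) 2, (∫⁻ x, Φ z.1 (t - c) x ^ p ∂ν) ≤
          2 * (ENNReal.ofReal (C * ((1 + (2 + |c|)) * (1 + (2 + |c|) / √z.1) ^ q * z.1 ^ b)) * N) := by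
        refine (shift (fun t => ∫⁻ x, Φ z.1 t x ^ p ∂ν) (fun t => by simp only [hev]) c).trans ?_
        gcongr
        exact hbound z.1 (2 + |c|) hz (by positivity)
      have c3 : wgt (-1 + η) z * ENNReal.ofReal (z.1 ^ (β + 1 - η)) ^ p *
          ENNReal.ofReal ((1 + (2 + |c|)) * (1 + (2 + |c|) / √z.1) ^ q * z.1 ^ b) ≤
          ENNReal.ofReal D₀ * (ENNReal.ofReal (z.1 ^ E * Real.exp (-(1 / 2) * z.1)) *
          ENNReal.ofReal (Real.exp (-(1 / 4) * z.2 ^ 2))) := by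
        unfold wgt
        rw [ENNReal.ofReal_rpow_of_nonneg (by positivity) hp0.le, ← ENNReal.ofReal_mul (by positivity),
          ← ENNReal.ofReal_mul (by positivity), ← ENNReal.ofReal_mul (by positivity),
          ← ENNReal.ofReal_mul (by positivity)]
        exact ENNReal.ofReal_le_ofReal (hw z.1 z.2 hz)
      rw [c1]
      calc _ ≤ (wgt (-1 + η) z * ENNReal.ofReal (z.1 ^ (β + 1 - η)) ^ p) *
            (2 * (ENNReal.ofReal (C * ((1 + (2 + |c|)) * (1 + (2 + |c|) / √z.1) ^ q * z.1 ^ b)) * N)) := by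
            gcongr
        _ = 2 * (wgt (-1 + η) z * ENNReal.ofReal (z.1 ^ (β + 1 - η)) ^ p *
          ENNReal.ofReal ((1 + (2 + |c|)) * (1 + (2 + |c|) / √z.1) ^ q * z.1 ^ b)) * (ENNReal.ofReal C * N) := by
            rw [ENNReal.ofReal_mul hC]
            ring
        _ ≤ _ := by gcongr
    calc ∫⁻ t in Icc (0 : ℝ) 2, (∫⁻ x, (∫⁻ z, wgt β z * Φ z.1 (t - √z.1 * z.2) x ∂mu) ^ p ∂ν)
        ≤ ∫⁻ t in Icc (0 : ℝ) 2, (∫⁻ x, M ^ (p - 1) * (∫⁻ z, F (t, x) z ∂mu) ∂ν) :=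
          lintegral_mono fun t => lintegral_mono fun x => hs1 t x
      _ = M ^ (p - 1) * ∫⁻ t in Icc (0 : ℝ) 2, (∫⁻ x, (∫⁻ z, F (t, x) z ∂mu) ∂ν) := by
          rw [← lintegral_const_mul' _ _ hMp]
          congr 1
          ext t
          rw [← lintegral_const_mul' _ _ hMp]
      _ = M ^ (p - 1) * ∫⁻ z, (∫⁻ t in Icc (0 : ℝ) 2, (∫⁻ x, F (t, x) z ∂ν)) ∂mu := by rw [hswap]
      _ ≤ M ^ (p - 1) * ∫⁻ z, (2 * (ENNReal.ofReal D₀ * (ENNReal.ofReal (z.1 ^ E * Real.exp (-(1 / 2) * z.1)) *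
          ENNReal.ofReal (Real.exp (-(1 / 4) * z.2 ^ 2))))) * (ENNReal.ofReal C * N) ∂mu := by
          apply mul_le_mul_right
          apply lintegral_mono_ae
          filter_upwards [ae_mu] with z hz
          exact hpt z hz
      _ = D₁ * (ENNReal.ofReal C * N) := by
          rw [lintegral_mul_const _ (by fun_prop), lintegral_const_mul _ (by fun_prop),
            lintegral_const_mul _ (by fun_prop)]
          rw [hD₁, hBdef]
          ring
  refine hmain.trans ?_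
  rw [← mul_assoc, ENNReal.ofReal_mul (by positivity)]
  gcongr
  rw [ENNReal.le_ofReal_iff_toReal_le hD₁t.ne (by positivity)]
  linarith

end Pool.Agent.U688.WV
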