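import Pool.Agent.U688.WV.Rep

set_option autoImplicit false

open MeasureTheory Set
open scoped ENNReal NNReal FourierTransform RealInnerProductSpace SchwartzMap

namespace Pool.Agent.U688.WV

open Pool.Agent.U562.WV

/-- first kernel -/
noncomputable def kap1 (al : ℝ) (z : ℝ × ℝ) : ℝ :=
  (z.1 ^ (al - 3 / 2) * Real.exp (-z.1)) * (z.2 * Real.exp (-(1 / 2) * z.2 ^ 2))

/-- second kernel -/
noncomputable def kap2 (al : ℝ) (z : ℝ × ℝ) : ℝ :=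
  (z.1 ^ (al - 3 / 2) * (Real.exp (-z.1) - Real.exp (-(2 * z.1)))) * (z.2 * Real.exp (-(1 / 2) * z.2 ^ 2))

/-- the real heat multiplier -/
noncomputable def hr (a : ℝ) (ξ : E 3) : ℝ := Real.exp (-(4 * Real.pi ^ 2 * a * ‖ξ‖ ^ 2))

lemma hr_le (a : ℝ) (ha : 0 ≤ a) (ξ : E 3) : hr a ξ ≤ 1 := by
  unfold hr
  rw [Real.exp_le_one_iff]
  have : 0 ≤ 4 * Real.pi ^ 2 * a * ‖ξ‖ ^ 2 := by positivity
  linarith

lemma hr_pos (a : ℝ) (ξ : E 3) : 0 < hr a ξ := Real.exp_pos _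

/-- first multiplier -/
noncomputable def g1 (t : ℝ) (z : ℝ × ℝ) (ξ : E 3) : ℝ :=
  Real.cos (2 * Real.pi * (t - √z.1 * z.2) * ‖ξ‖) * (hr (z.1 / 2) ξ - hr (3 * z.1 / 2) ξ)

/-- second multiplier -/
noncomputable def g2 (t : ℝ) (z : ℝ × ℝ) (ξ : E 3) : ℝ :=
  Real.cos (2 * Real.pi * (t - √z.1 * z.2) * ‖ξ‖) * hr (3 * z.1 / 2) ξ

lemma g1_cont (t : ℝ) : Continuous (Function.uncurry (g1 t)) := by
  unfold g1 hr Function.uncurry
  fun_prop

lemma g2_cont (t : ℝ) : Continuous (Function.uncurry (g2 t)) := by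
  unfold g2 hr Function.uncurry
  fun_prop

lemma g1_le (t : ℝ) (z : ℝ × ℝ) (hz : 0 < z.1) (ξ : E 3) : |g1 t z ξ| ≤ 1 := by
  unfold g1
  rw [abs_mul]
  have h1 := Real.abs_cos_le_one (2 * Real.pi * (t - √z.1 * z.2) * ‖ξ‖)
  have h2 : |hr (z.1 / 2) ξ - hr (3 * z.1 / 2) ξ| ≤ 1 := by
    rw [abs_le]
    have a1 := hr_le (z.1 / 2) (by positivity) ξ
    have a2 := hr_le (3 * z.1 / 2) (by positivity) ξ
    have a3 := hr_pos (z.1 / 2) ξ
    have a4 := hr_pos (3 * z.1 / 2) ξ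
    constructor <;> linarith
  calc _ ≤ 1 * 1 := mul_le_mul h1 h2 (abs_nonneg _) zero_le_one
    _ = 1 := one_mul 1

lemma g2_le (t : ℝ) (z : ℝ × ℝ) (hz : 0 < z.1) (ξ : E 3) : |g2 t z ξ| ≤ 1 := by
  unfold g2
  rw [abs_mul]
  have h1 := Real.abs_cos_le_one (2 * Real.pi * (t - √z.1 * z.2) * ‖ξ‖)
  have h2 : |hr (3 * z.1 / 2) ξ| ≤ 1 := by
    rw [abs_of_pos (hr_pos _ _)]
    exact hr_le (3 * z.1 / 2) (by positivity) ξ
  calc _ ≤ 1 * 1 := mul_le_mul h1 h2 (abs_nonneg _) zero_le_one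
    _ = 1 := one_mul 1

lemma i_exp (β c : ℝ) (hβ : -1 < β) (hc : 0 < c) :
    IntegrableOn (fun τ : ℝ => τ ^ β * Real.exp (-(c * τ))) (Ioi 0) := by
  have h := integrableOn_rpow_mul_exp_neg_mul_rpow (p := 1) (s := β) (b := c) hβ one_pos hc
  simpa only [Real.rpow_one, neg_mul] using h

lemma kap1_int (al : ℝ) (hal : 1 / 2 < al) : Integrable (kap1 al) mu := by
  rw [mu_eq]
  have h1 : Integrable (fun τ : ℝ => τ ^ (al - 3 / 2) * Real.exp (-τ)) (volume.restrict (Ioi 0)) := by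
    have := i_exp (al - 3 / 2) 1 (by linarith) one_pos
    simp only [one_mul] at this
    exact this
  exact h1.mul_prod (integrable_mul_exp_neg_mul_sq (b := 1 / 2) (by norm_num))

lemma kap2_int (al : ℝ) (hal : 1 / 2 < al) : Integrable (kap2 al) mu := by
  rw [mu_eq]
  have h1 : Integrable (fun τ : ℝ => τ ^ (al - 3 / 2) * (Real.exp (-τ) - Real.exp (-(2 * τ))))
      (volume.restrict (Ioi 0)) := by
    have a1 := i_exp (al - 3 / 2) 1 (by linarith) one_pos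
    have a2 := i_exp (al - 3 / 2) 2 (by linarith) two_pos
    simp only [one_mul] at a1
    refine (a1.sub a2).congr ?_
    filter_upwards with τ
    simp only [Pi.sub_apply]
    ring
  exact h1.mul_prod (integrable_mul_exp_neg_mul_sq (b := 1 / 2) (by norm_num))

lemma kg1_int (al : ℝ) (hal : 1 / 2 < al) (t : ℝ) (ξ : E 3) :
    Integrable (fun z => kap1 al z * g1 t z ξ) mu := by
  apply (kap1_int al hal).mul_bdd (c := 1)
  · exact ((g1_cont t).comp (f := fun z : ℝ × ℝ => (z, ξ)) (by fun_prop)).aestronglyMeasurable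
  · filter_upwards [ae_mu] with z hz
    exact g1_le t z hz ξ

lemma kg2_int (al : ℝ) (hal : 1 / 2 < al) (t : ℝ) (ξ : E 3) :
    Integrable (fun z => kap2 al z * g2 t z ξ) mu := by
  apply (kap2_int al hal).mul_bdd (c := 1)
  · exact ((g2_cont t).comp (f := fun z : ℝ × ℝ => (z, ξ)) (by fun_prop)).aestronglyMeasurable
  · filter_upwards [ae_mu] with z hz
    exact g2_le t z hz ξ

lemma mult (al : ℝ) (hal : 1 / 2 < al) (t : ℝ) (ξ : E 3) :
    (∫ z, kap1 al z * g1 t z ξ ∂mu) + (∫ z, kap2 al z * g2 t z ξ ∂mu) =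
      √(2 * Real.pi) * (Real.Gamma al * (1 - 2 ^ (-al))) *
        (2 * Real.pi * ‖ξ‖ * Real.sin (2 * Real.pi * t * ‖ξ‖) * (1 + 4 * Real.pi ^ 2 * ‖ξ‖ ^ 2) ^ (-al)) := by
  rw [← integral_add (kg1_int al hal t ξ) (kg2_int al hal t ξ)]
  set A : ℝ → ℝ := fun τ => τ ^ (al - 3 / 2) * (Real.exp (-τ) * (hr (τ / 2) ξ - hr (3 * τ / 2) ξ) +
    (Real.exp (-τ) - Real.exp (-(2 * τ))) * hr (3 * τ / 2) ξ) with hA
  set ω : ℝ := 2 * Real.pi * ‖ξ‖ with hω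
  set θ : ℝ := 2 * Real.pi * t * ‖ξ‖ with hθ
  have h1 : (fun z : ℝ × ℝ => kap1 al z * g1 t z ξ + kap2 al z * g2 t z ξ) =
      fun z : ℝ × ℝ => A z.1 * (z.2 * Real.exp (-(1 / 2) * z.2 ^ 2) * Real.cos (θ - (√z.1 * ω) * z.2)) := by
    ext z
    have : 2 * Real.pi * (t - √z.1 * z.2) * ‖ξ‖ = θ - (√z.1 * ω) * z.2 := by rw [hθ, hω]; ring
    unfold kap1 kap2 g1 g2
    rw [this, hA]
    ring
  have h2 : Integrable (fun z : ℝ × ℝ => A z.1 * (z.2 * Real.exp (-(1 / 2) * z.2 ^ 2) *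
      Real.cos (θ - (√z.1 * ω) * z.2))) mu := by
    rw [← h1]
    exact (kg1_int al hal t ξ).add (kg2_int al hal t ξ)
  rw [h1]
  rw [mu_eq] at h2 ⊢
  rw [integral_prod _ h2]
  simp only [integral_const_mul, gauss_cos]
  have h3 : ∫ τ in Ioi (0 : ℝ), A τ * (√(2 * Real.pi) * (√τ * ω * Real.exp (-((√τ * ω) ^ 2 / 2))) * Real.sin θ) =
      ∫ τ in Ioi (0 : ℝ), (√(2 * Real.pi) * (ω * Real.sin θ)) * (τ ^ (al - 1) *
        (Real.exp (-((1 + 4 * Real.pi ^ 2 * ‖ξ‖ ^ 2) * τ)) - Real.exp (-(2 * (1 + 4 * Real.pi ^ 2 * ‖ξ‖ ^ 2) * τ)))) := by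
    apply setIntegral_congr_fun measurableSet_Ioi
    intro τ hτ
    have hτ0 : (0 : ℝ) < τ := hτ
    have e1 : τ ^ (al - 1) = τ ^ (al - 3 / 2) * √τ := by
      rw [Real.sqrt_eq_rpow, ← Real.rpow_add hτ0]; congr 1; ring
    have e2 : Real.exp (-((√τ * ω) ^ 2 / 2)) = hr (τ / 2) ξ := by
      unfold hr
      congr 1
      rw [mul_pow, Real.sq_sqrt hτ0.le, hω]
      ring
    have e3 : Real.exp (-((1 + 4 * Real.pi ^ 2 * ‖ξ‖ ^ 2) * τ)) = Real.exp (-τ) * hr (τ / 2) ξ * hr (τ / 2) ξ := by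
      unfold hr
      rw [← Real.exp_add, ← Real.exp_add]
      congr 1
      ring
    have e4 : Real.exp (-(2 * (1 + 4 * Real.pi ^ 2 * ‖ξ‖ ^ 2) * τ)) =
        Real.exp (-(2 * τ)) * hr (3 * τ / 2) ξ * hr (τ / 2) ξ := by
      unfold hr
      rw [← Real.exp_add, ← Real.exp_add]
      congr 1
      ring
    simp only
    rw [e1, e2, e3, e4, hA]
    ring
  rw [h3, integral_const_mul, gamma_int al _ (by linarith) (by positivity)]
  ring

/-- the representation of `sin (t ω) / ω` -/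
lemma sin_rep (al t : ℝ) (ht : 0 ≤ t) (ξ : E 3) (hξ : ξ ≠ 0) :
    Real.sin (2 * Real.pi * t * ‖ξ‖) / (2 * Real.pi * ‖ξ‖) * (1 + 4 * Real.pi ^ 2 * ‖ξ‖ ^ 2) ^ (-al) =
      ∫ r in Ioc (0 : ℝ) t, (1 : ℝ) * (Real.cos (2 * Real.pi * r * ‖ξ‖) * (1 + 4 * Real.pi ^ 2 * ‖ξ‖ ^ 2) ^ (-al)) := by
  have hω : (2 * Real.pi * ‖ξ‖) ≠ 0 := by
    have := norm_pos_iff.2 hξ
    positivity
  simp only [one_mul]
  rw [integral_mul_const]
  congr 1
  rw [← intervalIntegral.integral_of_le ht]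
  have h1 : ∀ r : ℝ, 2 * Real.pi * r * ‖ξ‖ = (2 * Real.pi * ‖ξ‖) * r := by intro r; ring
  simp only [h1]
  rw [intervalIntegral.integral_comp_mul_left (fun y => Real.cos y) hω, integral_cos]
  simp
  ring

end Pool.Agent.U688.WV
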