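import Pool.Agent.U688.WV.Mult

set_option autoImplicit false

open MeasureTheory Set
open scoped ENNReal NNReal FourierTransform RealInnerProductSpace SchwartzMap

namespace Pool.Agent.U688.WV

open Pool.Agent.U562.WV

lemma four_zero : 𝓕 ((0 : 𝓢(E 3, ℂ)) : E 3 → ℂ) = fun _ => 0 := by
  ext ξ
  rw [Real.fourier_eq]
  simp

lemma G_int (f : 𝓢(E 3, ℂ)) : Integrable (𝓕 (f : E 3 → ℂ)) := by
  rw [← SchwartzMap.fourier_coe]
  exact (𝓕 f : 𝓢(E 3, ℂ)).integrable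

lemma G_cont (f : 𝓢(E 3, ℂ)) : Continuous (𝓕 (f : E 3 → ℂ)) := by
  rw [← SchwartzMap.fourier_coe]
  exact (𝓕 f : 𝓢(E 3, ℂ)).continuous

lemma ht_eq (a : ℝ) (ξ : E 3) : ht a ξ = ((hr a ξ : ℝ) : ℂ) := rfl

/-- first size function -/
noncomputable def Ph1 (G : E 3 → ℂ) (τ t : ℝ) (x : E 3) : ℝ≥0∞ :=
  ‖inv (fun ξ => ((Real.cos (2 * Real.pi * t * ‖ξ‖) : ℝ) : ℂ) * ((ht (τ / 2) ξ - ht (3 * τ / 2) ξ) * G ξ)) x‖ₑ

/-- second size function -/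
noncomputable def Ph2 (G : E 3 → ℂ) (τ t : ℝ) (x : E 3) : ℝ≥0∞ :=
  ‖inv (fun ξ => ((Real.cos (2 * Real.pi * t * ‖ξ‖) : ℝ) : ℂ) * (ht (3 * τ / 2) ξ * G ξ)) x‖ₑ

lemma ht_cont : Continuous fun w : ℝ × E 3 => ht w.1 w.2 := by
  unfold ht
  fun_prop

lemma Ph1_meas (G : E 3 → ℂ) (hG : Continuous G) :
    Measurable fun z : ℝ × ℝ × E 3 => Ph1 G z.1 z.2.1 z.2.2 := by
  have h := inv_meas (Z := ℝ × ℝ) (fun w ξ => ((Real.cos (2 * Real.pi * w.2 * ‖ξ‖) : ℝ) : ℂ) *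
    ((ht (w.1 / 2) ξ - ht (3 * w.1 / 2) ξ) * G ξ)) (by
      apply Continuous.measurable
      unfold Function.uncurry
      have h1 : Continuous fun w : (ℝ × ℝ) × E 3 => ht (w.1.1 / 2) w.2 :=
        ht_cont.comp (f := fun w : (ℝ × ℝ) × E 3 => (w.1.1 / 2, w.2)) (by fun_prop)
      have h2 : Continuous fun w : (ℝ × ℝ) × E 3 => ht (3 * w.1.1 / 2) w.2 :=
        ht_cont.comp (f := fun w : (ℝ × ℝ) × E 3 => (3 * w.1.1 / 2, w.2)) (by fun_prop)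
      have h3 : Continuous fun w : (ℝ × ℝ) × E 3 => G w.2 := hG.comp continuous_snd
      fun_prop)
  exact (h.comp (f := fun z : ℝ × ℝ × E 3 => ((z.1, z.2.1), z.2.2)) (by fun_prop)).enorm

lemma Ph2_meas (G : E 3 → ℂ) (hG : Continuous G) :
    Measurable fun z : ℝ × ℝ × E 3 => Ph2 G z.1 z.2.1 z.2.2 := by
  have h := inv_meas (Z := ℝ × ℝ) (fun w ξ => ((Real.cos (2 * Real.pi * w.2 * ‖ξ‖) : ℝ) : ℂ) *
    (ht (3 * w.1 / 2) ξ * G ξ)) (by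
      apply Continuous.measurable
      unfold Function.uncurry
      have h2 : Continuous fun w : (ℝ × ℝ) × E 3 => ht (3 * w.1.1 / 2) w.2 :=
        ht_cont.comp (f := fun w : (ℝ × ℝ) × E 3 => (3 * w.1.1 / 2, w.2)) (by fun_prop)
      have h3 : Continuous fun w : (ℝ × ℝ) × E 3 => G w.2 := hG.comp continuous_snd
      fun_prop)
  exact (h.comp (f := fun z : ℝ × ℝ × E 3 => ((z.1, z.2.1), z.2.2)) (by fun_prop)).enorm

lemma Ph1_even (G : E 3 → ℂ) (τ t : ℝ) (x : E 3) : Ph1 G τ (-t) x = Ph1 G τ t x := by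
  unfold Ph1
  have : ∀ ξ : E 3, Real.cos (2 * Real.pi * (-t) * ‖ξ‖) = Real.cos (2 * Real.pi * t * ‖ξ‖) := by
    intro ξ
    rw [← Real.cos_neg]; congr 1; ring
  simp only [this]

lemma Ph2_even (G : E 3 → ℂ) (τ t : ℝ) (x : E 3) : Ph2 G τ (-t) x = Ph2 G τ t x := by
  unfold Ph2
  have : ∀ ξ : E 3, Real.cos (2 * Real.pi * (-t) * ‖ξ‖) = Real.cos (2 * Real.pi * t * ‖ξ‖) := by
    intro ξ
    rw [← Real.cos_neg]; congr 1; ring
  simp only [this]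

/-- the averages -/
noncomputable def Y1 (G : E 3 → ℂ) (al t : ℝ) (x : E 3) : ℝ≥0∞ :=
  ∫⁻ z, wgt (al - 3 / 2) z * Ph1 G z.1 (t - √z.1 * z.2) x ∂mu

/-- the averages -/
noncomputable def Y2 (G : E 3 → ℂ) (al t : ℝ) (x : E 3) : ℝ≥0∞ :=
  ∫⁻ z, wgt (al - 1 / 2) z * Ph2 G z.1 (t - √z.1 * z.2) x ∂mu

/-- the constant -/
noncomputable def cst (al : ℝ) : ℝ := √(2 * Real.pi) * (Real.Gamma al * (1 - 2 ^ (-al)))

lemma cst_pos (al : ℝ) (hal : 0 < al) : 0 < cst al := by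
  unfold cst
  have h1 : (2 : ℝ) ^ (-al) < 1 := Real.rpow_lt_one_of_one_lt_of_neg (by norm_num) (by linarith)
  have h2 := Real.Gamma_pos_of_pos hal
  have h3 : 0 < 1 - (2 : ℝ) ^ (-al) := by linarith
  positivity

lemma wave_cos (s : ℝ) (f : 𝓢(E 3, ℂ)) (r : ℝ) (x : E 3) :
    wave (s + 1) f 0 r x = inv (fun ξ => ((Real.cos (2 * Real.pi * r * ‖ξ‖) *
      (1 + 4 * Real.pi ^ 2 * ‖ξ‖ ^ 2) ^ (-((1 + s) / 2)) : ℝ) : ℂ) * 𝓕 (f : E 3 → ℂ) ξ) x := by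
  unfold wave
  rw [four_zero]
  have : -(s + 1) / 2 = -((1 + s) / 2) := by ring
  simp only [this, mul_zero, add_zero]

lemma pointwise (s : ℝ) (hs : 0 < s) (f : 𝓢(E 3, ℂ)) (t : ℝ) (ht0 : 0 ≤ t) (ht2 : t ≤ 2) (x : E 3) :
    ‖wave s 0 f t x‖ₑ ≤ (∫⁻ r in Icc (0 : ℝ) 2, ‖wave (s + 1) f 0 r x‖ₑ) +
      ENNReal.ofReal ((cst ((1 + s) / 2))⁻¹) *
        (Y1 (𝓕 (f : E 3 → ℂ)) ((1 + s) / 2) t x + Y2 (𝓕 (f : E 3 → ℂ)) ((1 + s) / 2) t x) := by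
  set al := (1 + s) / 2 with hal
  have hal2 : 1 / 2 < al := by rw [hal]; linarith
  set G := 𝓕 (f : E 3 → ℂ) with hG
  have hGi : Integrable G := G_int f
  have hc := cst_pos al (by linarith)
  -- the three pieces
  obtain ⟨iA, bA⟩ := inv_rep (volume.restrict (Ioc (0 : ℝ) t)) G hGi (fun _ => 1) (by
      exact integrable_const _) (fun r ξ => Real.cos (2 * Real.pi * r * ‖ξ‖) *
        (1 + 4 * Real.pi ^ 2 * ‖ξ‖ ^ 2) ^ (-al)) (by
        apply Continuous.measurable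
        unfold Function.uncurry
        have h1 : Continuous fun w : ℝ × E 3 => (1 + 4 * Real.pi ^ 2 * ‖w.2‖ ^ 2) ^ (-al) := by
          apply Continuous.rpow_const (by fun_prop)
          intro w
          left
          positivity
        fun_prop) (by
        filter_upwards with r
        intro ξ
        rw [abs_mul]
        have h1 := Real.abs_cos_le_one (2 * Real.pi * r * ‖ξ‖)
        have h2 : |(1 + 4 * Real.pi ^ 2 * ‖ξ‖ ^ 2) ^ (-al)| ≤ 1 := by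
          rw [abs_of_nonneg (by positivity)]
          apply Real.rpow_le_one_of_one_le_of_nonpos
          · have : 0 ≤ 4 * Real.pi ^ 2 * ‖ξ‖ ^ 2 := by positivity
            linarith
          · linarith
        calc _ ≤ 1 * 1 := mul_le_mul h1 h2 (abs_nonneg _) zero_le_one
          _ = 1 := one_mul 1) (fun ξ => Real.sin (2 * Real.pi * t * ‖ξ‖) / (2 * Real.pi * ‖ξ‖) *
        (1 + 4 * Real.pi ^ 2 * ‖ξ‖ ^ 2) ^ (-al)) (by
        have h0 : ∀ᵐ ξ : E 3, ξ ≠ 0 := by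
          have := (measure_singleton (μ := (volume : Measure (E 3))) (0 : E 3))
          exact (measure_eq_zero_iff_ae_notMem).1 this
        filter_upwards [h0] with ξ hξ
        exact sin_rep al t ht0 ξ hξ) x
  obtain ⟨i1, b1⟩ := inv_rep mu G hGi (kap1 al) (kap1_int al hal2) (g1 t) (g1_cont t).measurable (by
      filter_upwards [ae_mu] with z hz
      exact g1_le t z hz) (fun ξ => ∫ z, kap1 al z * g1 t z ξ ∂mu) (by filter_upwards with ξ; rfl) x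
  obtain ⟨i2, b2⟩ := inv_rep mu G hGi (kap2 al) (kap2_int al hal2) (g2 t) (g2_cont t).measurable (by
      filter_upwards [ae_mu] with z hz
      exact g2_le t z hz) (fun ξ => ∫ z, kap2 al z * g2 t z ξ ∂mu) (by filter_upwards with ξ; rfl) x
  have hreal : ∀ ξ : E 3, Real.sin (2 * Real.pi * t * ‖ξ‖) / (2 * Real.pi * ‖ξ‖) *
      (1 + 4 * Real.pi ^ 2 * ‖ξ‖ ^ 2) ^ ((1 - s) / 2) =
      Real.sin (2 * Real.pi * t * ‖ξ‖) / (2 * Real.pi * ‖ξ‖) * (1 + 4 * Real.pi ^ 2 * ‖ξ‖ ^ 2) ^ (-al) +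
      (cst al)⁻¹ * ((∫ z, kap1 al z * g1 t z ξ ∂mu) + ∫ z, kap2 al z * g2 t z ξ ∂mu) := by
    intro ξ
    rw [mult al hal2 t ξ]
    have e1 : √(2 * Real.pi) * (Real.Gamma al * (1 - 2 ^ (-al))) = cst al := rfl
    rw [e1, inv_mul_cancel_left₀ hc.ne']
    have e2 : (1 + 4 * Real.pi ^ 2 * ‖ξ‖ ^ 2) ^ ((1 - s) / 2) =
        (1 + 4 * Real.pi ^ 2 * ‖ξ‖ ^ 2) * (1 + 4 * Real.pi ^ 2 * ‖ξ‖ ^ 2) ^ (-al) := by
      rw [mul_comm (1 + 4 * Real.pi ^ 2 * ‖ξ‖ ^ 2) ((1 + 4 * Real.pi ^ 2 * ‖ξ‖ ^ 2) ^ (-al)),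
        ← Real.rpow_add_one (by positivity)]
      congr 1
      rw [hal]; ring
    rw [e2]
    by_cases hξ : ‖ξ‖ = 0
    · rw [hξ]; simp
    · have h3 : (2 * Real.pi * ‖ξ‖) ≠ 0 := by positivity
      field_simp
      ring
  have hw : wave s 0 f t x = inv (fun ξ => ((Real.sin (2 * Real.pi * t * ‖ξ‖) / (2 * Real.pi * ‖ξ‖) *
      (1 + 4 * Real.pi ^ 2 * ‖ξ‖ ^ 2) ^ (-al) : ℝ) : ℂ) * G ξ +
      (((cst al)⁻¹ : ℝ) : ℂ) * (((∫ z, kap1 al z * g1 t z ξ ∂mu : ℝ) : ℂ) * G ξ +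
        ((∫ z, kap2 al z * g2 t z ξ ∂mu : ℝ) : ℂ) * G ξ)) x := by
    unfold wave
    rw [four_zero]
    apply inv_congr
    filter_upwards with ξ
    rw [mul_zero, zero_add, hreal ξ]
    push_cast
    ring
  have hA : (∫⁻ r in Ioc (0 : ℝ) t, ‖(1 : ℝ)‖ₑ * ‖inv (fun ξ => ((Real.cos (2 * Real.pi * r * ‖ξ‖) *
      (1 + 4 * Real.pi ^ 2 * ‖ξ‖ ^ 2) ^ (-al) : ℝ) : ℂ) * G ξ) x‖ₑ) ≤
      ∫⁻ r in Icc (0 : ℝ) 2, ‖wave (s + 1) f 0 r x‖ₑ := by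
    calc _ ≤ ∫⁻ r in Icc (0 : ℝ) 2, ‖(1 : ℝ)‖ₑ * ‖inv (fun ξ => ((Real.cos (2 * Real.pi * r * ‖ξ‖) *
          (1 + 4 * Real.pi ^ 2 * ‖ξ‖ ^ 2) ^ (-al) : ℝ) : ℂ) * G ξ) x‖ₑ :=
          lintegral_mono_set (fun r hr => ⟨hr.1.le, hr.2.trans ht2⟩)
      _ = _ := by
          congr 1
          ext r
          rw [wave_cos, ← hal, enorm_one, one_mul]
  have hB1 : (∫⁻ z, ‖kap1 al z‖ₑ * ‖inv (fun ξ => ((g1 t z ξ : ℝ) : ℂ) * G ξ) x‖ₑ ∂mu) ≤ Y1 G al t x := by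
    unfold Y1
    apply lintegral_mono_ae
    filter_upwards [ae_mu] with z hz
    have e1 : ‖kap1 al z‖ₑ ≤ wgt (al - 3 / 2) z := by
      rw [← ofReal_norm]
      unfold kap1 wgt
      apply ENNReal.ofReal_le_ofReal
      rw [Real.norm_eq_abs, abs_mul, abs_mul z.2, abs_of_pos (Real.exp_pos (-(1 / 2) * z.2 ^ 2)),
        abs_of_nonneg (by positivity : 0 ≤ z.1 ^ (al - 3 / 2) * Real.exp (-z.1))]
    have e2 : ‖inv (fun ξ => ((g1 t z ξ : ℝ) : ℂ) * G ξ) x‖ₑ = Ph1 G z.1 (t - √z.1 * z.2) x := by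
      unfold Ph1
      congr 2
      ext ξ
      rw [ht_eq, ht_eq]
      unfold g1
      push_cast
      ring
    rw [e2]
    gcongr
  have hB2 : (∫⁻ z, ‖kap2 al z‖ₑ * ‖inv (fun ξ => ((g2 t z ξ : ℝ) : ℂ) * G ξ) x‖ₑ ∂mu) ≤ Y2 G al t x := by
    unfold Y2
    apply lintegral_mono_ae
    filter_upwards [ae_mu] with z hz
    have e1 : ‖kap2 al z‖ₑ ≤ wgt (al - 1 / 2) z := by
      rw [← ofReal_norm]
      unfold kap2 wgt
      apply ENNReal.ofReal_le_ofReal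
      have h1 : Real.exp (-(2 * z.1)) = Real.exp (-z.1) * Real.exp (-z.1) := by
        rw [← Real.exp_add]; congr 1; ring
      have h2 : 1 - Real.exp (-z.1) ≤ z.1 := by
        have := Real.add_one_le_exp (-z.1)
        linarith
      have h3 : 0 ≤ 1 - Real.exp (-z.1) := by
        have : Real.exp (-z.1) ≤ 1 := Real.exp_le_one_iff.2 (by linarith)
        linarith
      have h4 : Real.exp (-z.1) - Real.exp (-(2 * z.1)) = Real.exp (-z.1) * (1 - Real.exp (-z.1)) := by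
        rw [h1]; ring
      have h5 : z.1 ^ (al - 1 / 2) = z.1 ^ (al - 3 / 2) * z.1 := by
        rw [← Real.rpow_add_one hz.ne']; congr 1; ring
      rw [h4, h5, Real.norm_eq_abs, abs_mul, abs_mul z.2, abs_of_pos (Real.exp_pos (-(1 / 2) * z.2 ^ 2)),
        abs_of_nonneg (by positivity : 0 ≤ z.1 ^ (al - 3 / 2) * (Real.exp (-z.1) * (1 - Real.exp (-z.1))))]
      have h6 : z.1 ^ (al - 3 / 2) * (Real.exp (-z.1) * (1 - Real.exp (-z.1))) ≤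
          z.1 ^ (al - 3 / 2) * z.1 * Real.exp (-z.1) := by
        have : Real.exp (-z.1) * (1 - Real.exp (-z.1)) ≤ Real.exp (-z.1) * z.1 :=
          mul_le_mul_of_nonneg_left h2 (Real.exp_pos _).le
        calc _ ≤ z.1 ^ (al - 3 / 2) * (Real.exp (-z.1) * z.1) :=
              mul_le_mul_of_nonneg_left this (by positivity)
          _ = _ := by ring
      exact mul_le_mul_of_nonneg_right h6 (by positivity)
    have e2 : ‖inv (fun ξ => ((g2 t z ξ : ℝ) : ℂ) * G ξ) x‖ₑ = Ph2 G z.1 (t - √z.1 * z.2) x := by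
      unfold Ph2
      congr 2
      ext ξ
      rw [ht_eq]
      unfold g2
      push_cast
      ring
    rw [e2]
    gcongr
  have i12 : Integrable (fun ξ => ((∫ z, kap1 al z * g1 t z ξ ∂mu : ℝ) : ℂ) * G ξ +
      ((∫ z, kap2 al z * g2 t z ξ ∂mu : ℝ) : ℂ) * G ξ) := i1.add i2
  rw [hw, inv_add _ _ iA (i12.const_mul _) x, inv_smul, inv_add _ _ i1 i2 x]
  have hcc : ‖(((cst al)⁻¹ : ℝ) : ℂ)‖ₑ = ENNReal.ofReal ((cst al)⁻¹) := by
    rw [← ofReal_norm, Complex.norm_real, Real.norm_of_nonneg (by positivity)]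
  calc _ ≤ ‖inv (fun ξ => ((Real.sin (2 * Real.pi * t * ‖ξ‖) / (2 * Real.pi * ‖ξ‖) *
      (1 + 4 * Real.pi ^ 2 * ‖ξ‖ ^ 2) ^ (-al) : ℝ) : ℂ) * G ξ) x‖ₑ +
      ‖(((cst al)⁻¹ : ℝ) : ℂ) * (inv (fun ξ => ((∫ z, kap1 al z * g1 t z ξ ∂mu : ℝ) : ℂ) * G ξ) x +
        inv (fun ξ => ((∫ z, kap2 al z * g2 t z ξ ∂mu : ℝ) : ℂ) * G ξ) x)‖ₑ := enorm_add_le _ _
    _ ≤ _ := by
        rw [enorm_mul, hcc]
        refine add_le_add (bA.trans hA) ?_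
        apply mul_le_mul_right
        exact (enorm_add_le _ _).trans (add_le_add (b1.trans hB1) (b2.trans hB2))

end Pool.Agent.U688.WV
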