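import Pool.Agent.U688.WV.Pt

set_option autoImplicit false

open MeasureTheory Set
open scoped ENNReal NNReal FourierTransform RealInnerProductSpace SchwartzMap

namespace Pool.Agent.U688.WV

open Pool.Agent.U562.WV

lemma W_meas (s : ℝ) (f : 𝓢(E 3, ℂ)) : Measurable fun w : ℝ × E 3 => ‖wave (s + 1) f 0 w.1 w.2‖ₑ := by
  have h := inv_meas (Z := ℝ) (fun r ξ => ((Real.cos (2 * Real.pi * r * ‖ξ‖) *
      (1 + 4 * Real.pi ^ 2 * ‖ξ‖ ^ 2) ^ (-((1 + s) / 2)) : ℝ) : ℂ) * 𝓕 (f : E 3 → ℂ) ξ) (by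
        apply Continuous.measurable
        unfold Function.uncurry
        have h1 : Continuous fun w : ℝ × E 3 => (1 + 4 * Real.pi ^ 2 * ‖w.2‖ ^ 2) ^ (-((1 + s) / 2)) := by
          apply Continuous.rpow_const (by fun_prop)
          intro w
          left
          positivity
        have h2 : Continuous fun w : ℝ × E 3 => 𝓕 (f : E 3 → ℂ) w.2 := (G_cont f).comp continuous_snd
        apply Continuous.mul _ h2
        apply Complex.continuous_ofReal.comp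
        fun_prop)
  simp only [wave_cos]
  exact h.enorm

lemma Y1_meas (G : E 3 → ℂ) (hG : Continuous G) (al : ℝ) : Measurable fun w : ℝ × E 3 => Y1 G al w.1 w.2 := by
  unfold Y1
  have h : Measurable fun q : (ℝ × E 3) × (ℝ × ℝ) =>
      wgt (al - 3 / 2) q.2 * Ph1 G q.2.1 (q.1.1 - √q.2.1 * q.2.2) q.1.2 := by
    apply Measurable.mul ((meas_wgt _).comp measurable_snd)
    exact (Ph1_meas G hG).comp (f := fun q : (ℝ × E 3) × (ℝ × ℝ) =>
      ((q.2.1, q.1.1 - √q.2.1 * q.2.2, q.1.2) : ℝ × ℝ × E 3)) (by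
        apply Measurable.prodMk (by fun_prop)
        apply Measurable.prodMk
        · apply Measurable.sub (by fun_prop)
          apply Measurable.mul _ (by fun_prop)
          exact Real.continuous_sqrt.measurable.comp (by fun_prop)
        · fun_prop)
  exact h.lintegral_prod_right'

lemma Y2_meas (G : E 3 → ℂ) (hG : Continuous G) (al : ℝ) : Measurable fun w : ℝ × E 3 => Y2 G al w.1 w.2 := by
  unfold Y2
  have h : Measurable fun q : (ℝ × E 3) × (ℝ × ℝ) =>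
      wgt (al - 1 / 2) q.2 * Ph2 G q.2.1 (q.1.1 - √q.2.1 * q.2.2) q.1.2 := by
    apply Measurable.mul ((meas_wgt _).comp measurable_snd)
    exact (Ph2_meas G hG).comp (f := fun q : (ℝ × E 3) × (ℝ × ℝ) =>
      ((q.2.1, q.1.1 - √q.2.1 * q.2.2, q.1.2) : ℝ × ℝ × E 3)) (by
        apply Measurable.prodMk (by fun_prop)
        apply Measurable.prodMk
        · apply Measurable.sub (by fun_prop)
          apply Measurable.mul _ (by fun_prop)
          exact Real.continuous_sqrt.measurable.comp (by fun_prop)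
        · fun_prop)
  exact h.lintegral_prod_right'

/-- the elementary inequality -/
lemma three (p : ℝ) (hp : 1 ≤ p) (X c Y Z : ℝ≥0∞) :
    (X + c * (Y + Z)) ^ p ≤ (2 : ℝ≥0∞) ^ (p - 1) * X ^ p +
      (2 : ℝ≥0∞) ^ (p - 1) * (c ^ p * (2 : ℝ≥0∞) ^ (p - 1)) * (Y ^ p + Z ^ p) := by
  have hp0 : 0 ≤ p := by linarith
  calc (X + c * (Y + Z)) ^ p ≤ (2 : ℝ≥0∞) ^ (p - 1) * (X ^ p + (c * (Y + Z)) ^ p) :=
        ENNReal.rpow_add_le_mul_rpow_add_rpow _ _ hp
    _ = (2 : ℝ≥0∞) ^ (p - 1) * (X ^ p + c ^ p * (Y + Z) ^ p) := by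
        rw [ENNReal.mul_rpow_of_nonneg _ _ hp0]
    _ ≤ (2 : ℝ≥0∞) ^ (p - 1) * (X ^ p + c ^ p * ((2 : ℝ≥0∞) ^ (p - 1) * (Y ^ p + Z ^ p))) := by
        gcongr
        exact ENNReal.rpow_add_le_mul_rpow_add_rpow _ _ hp
    _ = _ := by ring

theorem t_SIN : S_PCS → S_COS → S_SIN := by
  intro hP hC A p s hA hp hs
  have hp0 : 0 < p := by linarith
  have hp1 : 1 < p := by linarith
  have hs0 : 0 < s := by
    have : 3 / p ≤ 1 := by rw [div_le_one hp0]; exact hp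
    linarith
  have hps : p - 3 < p * s := by
    have h1 : p * (1 - 3 / p) < p * s := mul_lt_mul_of_pos_left hs hp0
    have h2 : p * (1 - 3 / p) = p - 3 := by field_simp
    linarith
  set y := p - 2 - p * s with hy
  have hy1 : y < 1 := by rw [hy]; linarith
  set a := max (1 / 2) ((1 + y) / 2) with ha
  have ha0 : 0 < a := lt_of_lt_of_le (by norm_num) (le_max_left _ _)
  have ha1 : a < 1 := max_lt (by norm_num) (by linarith)
  have hay : y < a := lt_of_lt_of_le (by linarith) (le_max_right _ _)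
  obtain ⟨C₁, hC₁, hP1⟩ := hP A p a hA hp ha0 ha1
  obtain ⟨C₂, hC₂, hC1⟩ := hC A p (s + 1) hA hp (by linarith)
  set al := (1 + s) / 2 with hal
  have hc1 : 0 < p * (al - 3 / 2 + 1) + a / 2 - (p - 2) / 2 := by
    rw [hal]
    have : p * ((1 + s) / 2 - 3 / 2 + 1) + a / 2 - (p - 2) / 2 = (a - y) / 2 := by rw [hy]; ring
    rw [this]
    linarith
  have hc2 : 0 < p * (al - 1 / 2 + 1) + 0 - p / 2 := by
    rw [hal]
    have : p * ((1 + s) / 2 - 1 / 2 + 1) + 0 - p / 2 = p * (1 + s) / 2 := by ring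
    rw [this]
    positivity
  obtain ⟨D₁, hD₁, hm1⟩ := mainb (volume : Measure (E 3)) p (p - 2) (a / 2) (al - 3 / 2) hp1 (by linarith) hc1
  obtain ⟨D₂, hD₂, hm2⟩ := mainb (volume : Measure (E 3)) p p 0 (al - 1 / 2) hp1 (by linarith) hc2
  set c := ENNReal.ofReal ((cst al)⁻¹) with hc
  set k : ℝ≥0∞ := (2 : ℝ≥0∞) ^ (p - 1) with hk
  have hkt : k ≠ ⊤ := ENNReal.rpow_ne_top_of_nonneg (by linarith) (by norm_num)
  set l : ℝ≥0∞ := k * (c ^ p * k) with hl
  have hct : c ^ p ≠ ⊤ := ENNReal.rpow_ne_top_of_nonneg hp0.le ENNReal.ofReal_ne_top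
  have hlt : l ≠ ⊤ := ENNReal.mul_ne_top hkt (ENNReal.mul_ne_top hct hkt)
  set Ctot : ℝ≥0∞ := k * (2 * (k * ENNReal.ofReal C₂)) +
    l * (ENNReal.ofReal (D₁ * C₁) + ENNReal.ofReal (D₂ * C₁)) with hCtot
  have hCt : Ctot ≠ ⊤ := by
    apply ENNReal.add_ne_top.2
    refine ⟨ENNReal.mul_ne_top hkt (ENNReal.mul_ne_top (by norm_num) (ENNReal.mul_ne_top hkt ENNReal.ofReal_ne_top)),
      ENNReal.mul_ne_top hlt (ENNReal.add_ne_top.2 ⟨ENNReal.ofReal_ne_top, ENNReal.ofReal_ne_top⟩)⟩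
  refine ⟨Ctot.toReal + 1, by positivity, ?_⟩
  intro K hK f
  set G := 𝓕 (f : E 3 → ℂ) with hG
  have hGc : Continuous G := G_cont f
  set N := Nm K p f with hN
  -- first piece
  have hb1 := hm1 (Ph1 G) (Ph1_meas G hGc) (Ph1_even G) C₁ N hC₁.le (by
    intro τ T hτ hT
    have hs := Real.sqrt_pos.2 hτ
    have hss : √τ ^ 2 = τ := Real.sq_sqrt hτ.le
    have h := (hP1 K hK f (√τ) T hs hT (τ / 2) (3 * τ / 2) (by rw [hss]; linarith) (by rw [hss]; linarith)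
      (by rw [hss]; linarith) (by rw [hss]; linarith)).1
    refine h.trans (le_of_eq ?_)
    congr 2
    have : √τ ^ a = τ ^ (a / 2) := by
      rw [Real.sqrt_eq_rpow, ← Real.rpow_mul hτ.le]; congr 1; ring
    rw [this]
    ring)
  have hb2 := hm2 (Ph2 G) (Ph2_meas G hGc) (Ph2_even G) C₁ N hC₁.le (by
    intro τ T hτ hT
    have hs := Real.sqrt_pos.2 hτ
    have hss : √τ ^ 2 = τ := Real.sq_sqrt hτ.le
    have h := (hP1 K hK f (√τ) T hs hT (3 * τ / 2) (3 * τ / 2) (by rw [hss]; linarith) (by rw [hss]; linarith)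
      (by rw [hss]; linarith) (by rw [hss]; linarith)).2
    refine h.trans ?_
    have hr : C₁ * T * (1 + T / √τ) ^ p ≤ C₁ * ((1 + T) * (1 + T / √τ) ^ p * τ ^ (0 : ℝ)) := by
      rw [Real.rpow_zero, mul_one, mul_assoc]
      apply mul_le_mul_of_nonneg_left _ hC₁.le
      exact mul_le_mul_of_nonneg_right (by linarith) (by positivity)
    exact mul_le_mul' (ENNReal.ofReal_le_ofReal hr) le_rfl)
  -- zeroth piece
  have hmW := W_meas s f
  have hb0 : ∫⁻ x : E 3, (∫⁻ r in Icc (0 : ℝ) 2, ‖wave (s + 1) f 0 r x‖ₑ) ^ p ≤ k * (ENNReal.ofReal C₂ * N) := by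
    have h1 : ∀ x : E 3, (∫⁻ r in Icc (0 : ℝ) 2, ‖wave (s + 1) f 0 r x‖ₑ) ^ p ≤
        k * ∫⁻ r in Icc (0 : ℝ) 2, ‖wave (s + 1) f 0 r x‖ₑ ^ p := by
      intro x
      have h := jens (volume.restrict (Icc (0 : ℝ) 2)) p hp1 (fun _ => 1) (fun r => ‖wave (s + 1) f 0 r x‖ₑ)
        aemeasurable_const (hmW.comp (f := fun r : ℝ => (r, x)) (by fun_prop)).aemeasurable
      simp only [one_mul] at h
      refine h.trans (le_of_eq ?_)
      congr 2
      simp
    calc ∫⁻ x : E 3, (∫⁻ r in Icc (0 : ℝ) 2, ‖wave (s + 1) f 0 r x‖ₑ) ^ p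
        ≤ ∫⁻ x : E 3, k * ∫⁻ r in Icc (0 : ℝ) 2, ‖wave (s + 1) f 0 r x‖ₑ ^ p := lintegral_mono h1
      _ = k * ∫⁻ x : E 3, ∫⁻ r in Icc (0 : ℝ) 2, ‖wave (s + 1) f 0 r x‖ₑ ^ p := lintegral_const_mul' _ _ hkt
      _ = k * ∫⁻ r in Icc (0 : ℝ) 2, ∫⁻ x : E 3, ‖wave (s + 1) f 0 r x‖ₑ ^ p := by
          congr 1
          apply lintegral_lintegral_swap (f := fun (x : E 3) (r : ℝ) => ‖wave (s + 1) f 0 r x‖ₑ ^ p)
          exact ((hmW.comp (f := fun w : E 3 × ℝ => (w.2, w.1)) (by fun_prop)).pow_const p).aemeasurable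
      _ ≤ k * (ENNReal.ofReal C₂ * N) := by
          gcongr
          exact hC1 K hK f
  have hmain : ∫⁻ t in Icc (0 : ℝ) 2, (∫⁻ x, ‖wave s 0 f t x‖ₑ ^ p) ≤ Ctot * N := by
    have m0 : Measurable fun x : E 3 => (∫⁻ r in Icc (0 : ℝ) 2, ‖wave (s + 1) f 0 r x‖ₑ) ^ p := by
      have : Measurable fun w : E 3 × ℝ => ‖wave (s + 1) f 0 w.2 w.1‖ₑ :=
        hmW.comp (f := fun w : E 3 × ℝ => (w.2, w.1)) (by fun_prop)
      exact (this.lintegral_prod_right' (ν := volume.restrict (Icc (0 : ℝ) 2))).pow_const p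
    have m1 := Y1_meas G hGc al
    have m2 := Y2_meas G hGc al
    have m1x : ∀ t, Measurable fun x => Y1 G al t x ^ p := fun t =>
      (m1.comp (f := fun x : E 3 => (t, x)) (by fun_prop)).pow_const p
    have m1t : Measurable fun t => ∫⁻ x, Y1 G al t x ^ p :=
      (m1.pow_const p).lintegral_prod_right'
    have hpt : ∀ t ∈ Icc (0 : ℝ) 2, ∫⁻ x, ‖wave s 0 f t x‖ₑ ^ p ≤
        k * (k * (ENNReal.ofReal C₂ * N)) + l * ((∫⁻ x, Y1 G al t x ^ p) + ∫⁻ x, Y2 G al t x ^ p) := by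
      intro t ht
      calc ∫⁻ x, ‖wave s 0 f t x‖ₑ ^ p
          ≤ ∫⁻ x, (k * (∫⁻ r in Icc (0 : ℝ) 2, ‖wave (s + 1) f 0 r x‖ₑ) ^ p +
            l * (Y1 G al t x ^ p + Y2 G al t x ^ p)) := by
            apply lintegral_mono
            intro x
            exact (ENNReal.rpow_le_rpow (pointwise s hs0 f t ht.1 ht.2 x) hp0.le).trans (three p hp1.le _ _ _ _)
        _ = k * (∫⁻ x : E 3, (∫⁻ r in Icc (0 : ℝ) 2, ‖wave (s + 1) f 0 r x‖ₑ) ^ p) +
            l * ((∫⁻ x, Y1 G al t x ^ p) + ∫⁻ x, Y2 G al t x ^ p) := by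
            rw [lintegral_add_left (m0.const_mul k), lintegral_const_mul' _ _ hkt, lintegral_const_mul' _ _ hlt,
              lintegral_add_left (m1x t)]
        _ ≤ _ := by gcongr
    calc ∫⁻ t in Icc (0 : ℝ) 2, (∫⁻ x, ‖wave s 0 f t x‖ₑ ^ p)
        ≤ ∫⁻ t in Icc (0 : ℝ) 2, (k * (k * (ENNReal.ofReal C₂ * N)) +
          l * ((∫⁻ x, Y1 G al t x ^ p) + ∫⁻ x, Y2 G al t x ^ p)) :=
          setLIntegral_mono' measurableSet_Icc hpt
      _ = k * (k * (ENNReal.ofReal C₂ * N)) * 2 +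
          l * ((∫⁻ t in Icc (0 : ℝ) 2, ∫⁻ x, Y1 G al t x ^ p) + ∫⁻ t in Icc (0 : ℝ) 2, ∫⁻ x, Y2 G al t x ^ p) := by
          rw [lintegral_add_left measurable_const, lintegral_const_mul' _ _ hlt, lintegral_add_left m1t,
            setLIntegral_const]
          simp
      _ ≤ k * (k * (ENNReal.ofReal C₂ * N)) * 2 +
          l * (ENNReal.ofReal (D₁ * C₁) * N + ENNReal.ofReal (D₂ * C₁) * N) := by
          gcongr
          · exact hb1
          · exact hb2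
      _ = Ctot * N := by
          rw [hCtot]
          ring
  refine hmain.trans ?_
  gcongr
  rw [ENNReal.le_ofReal_iff_toReal_le hCt (by positivity)]
  linarith

end Pool.Agent.U688.WV
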